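import Mathlib

/-!
Near 1-factors of `K_v` with prescribed edge-lengths, for `v = p ^ k` a prime power and lists
all of whose entries are coprime to `p`.

Outline.  Let `v = 2n+1` and let `ψ` be a primitive additive character of `ZMod v`.
* `criterion`: if the permanent of the matrix `ψ(-j d_i) - ψ(j d_i)` (`1 ≤ j ≤ n`) is non-zero then
  there are `x_i` such that the `2n` residues `x_i`, `x_i + d_i` are distinct.
* `S_closed`, `T_dv`, `avg_ne_zero`: a `p`-adic estimate for sums over permutations.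
* `power_sum_dv`: the power sums of `(ψ(j) - ψ(-j))^2` are divisible by `v`.
* `per_ne_zero`: for `v = p ^ k` and `d_i` prime to `p` the permanent is non-zero; its `p`-adic size
  is exactly that of `n!` (after removing the factors `ψ(j) - ψ(-j)`).
-/

set_option autoImplicit false

open Finset Equiv

namespace Pool.Agent.Results.MP_6cccb1_co.PrimePowerCoprime

section Avg

variable {n : ℕ} {K : Type*} [Field K]

/-- `T g R = ∑_σ ∏_{i ∈ R} g i (σ i)`. -/
def T (g : Fin n → Fin n → K) (R : Finset (Fin n)) : K :=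
  ∑ σ : Perm (Fin n), ∏ i ∈ R, g i (σ i)

/-- sum over all positions outside `R`. -/
def S (g : Fin n → Fin n → K) (h : Fin n → K) (R : Finset (Fin n)) : K :=
  ∑ σ : Perm (Fin n), (∑ i ∈ univ \ R, h (σ i)) * ∏ i ∈ R, g i (σ i)

lemma swap_pos (g : Fin n → Fin n → K) (h : Fin n → K) (R : Finset (Fin n))
    {a b : Fin n} (ha : a ∉ R) (hb : b ∉ R) :
    ∑ σ : Perm (Fin n), h (σ a) * ∏ i ∈ R, g i (σ i)
      = ∑ σ : Perm (Fin n), h (σ b) * ∏ i ∈ R, g i (σ i) := by
  refine Fintype.sum_equiv (Equiv.mulRight (Equiv.swap a b)) _ _ ?_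
  intro σ
  simp only [Equiv.coe_mulRight, Equiv.Perm.coe_mul, Function.comp]
  rw [Equiv.swap_apply_right]
  congr 1
  refine Finset.prod_congr rfl ?_
  intro i hi
  rw [Equiv.swap_apply_of_ne_of_ne]
  · rintro rfl; exact ha hi
  · rintro rfl; exact hb hi

lemma S_eq_mul (g : Fin n → Fin n → K) (h : Fin n → K) (R : Finset (Fin n))
    {a : Fin n} (ha : a ∉ R) :
    S g h R = ((n - R.card : ℕ) : K) * ∑ σ : Perm (Fin n), h (σ a) * ∏ i ∈ R, g i (σ i) := by
  unfold S
  simp_rw [Finset.sum_mul]
  rw [Finset.sum_comm]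
  rw [Finset.sum_congr rfl (g := fun _ => ∑ σ : Perm (Fin n), h (σ a) * ∏ i ∈ R, g i (σ i))]
  · rw [Finset.sum_const, Finset.card_univ_sdiff, Fintype.card_fin, nsmul_eq_mul]
  · intro b hb
    have hb' : b ∉ R := by simpa using hb
    exact swap_pos g h R hb' ha

variable [CharZero K]

lemma S_rec (g : Fin n → Fin n → K) (h : Fin n → K) (R : Finset (Fin n)) :
    S g h R = (∑ j, h j) * T g R
      - ∑ i ∈ R, (((n - R.card + 1 : ℕ) : K))⁻¹ * S g (fun j => h j * g i j) (R.erase i) := by
  have h1 : S g h R = (∑ j, h j) * T g R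
      - ∑ i ∈ R, ∑ σ : Perm (Fin n), h (σ i) * ∏ l ∈ R, g l (σ l) := by
    unfold S T
    rw [Finset.mul_sum, Finset.sum_comm (s := R), ← Finset.sum_sub_distrib]
    refine Finset.sum_congr rfl ?_
    intro σ _
    rw [← Finset.sum_mul, ← sub_mul]
    congr 1
    rw [eq_sub_iff_add_eq, Finset.sum_sdiff (Finset.subset_univ R)]
    exact Equiv.sum_comp σ h
  rw [h1]
  congr 1
  refine Finset.sum_congr rfl ?_
  intro i hi
  rw [S_eq_mul g _ (R.erase i) (a := i) (Finset.notMem_erase i R)]
  have hcard : (R.erase i).card = R.card - 1 := Finset.card_erase_of_mem hi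
  have hpos : 0 < R.card := Finset.card_pos.mpr ⟨i, hi⟩
  have hle : R.card ≤ n := by simpa using Finset.card_le_univ R
  have hc : n - (R.erase i).card = n - R.card + 1 := by omega
  have hne : ((n - R.card + 1 : ℕ) : K) ≠ 0 := by rw [Nat.cast_ne_zero]; omega
  rw [hc, inv_mul_cancel_left₀ hne]
  refine Finset.sum_congr rfl ?_
  intro σ _
  rw [← Finset.mul_prod_erase R (fun l => g l (σ l)) hi]
  ring

omit [CharZero K] in
lemma sum_insert_powerset {α : Type*} [DecidableEq α] (R : Finset α) (Φ : Finset α → K) :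
    ∑ i ∈ R, ∑ C ∈ (R.erase i).powerset, Φ (insert i C)
      = ∑ C ∈ R.powerset, (C.card : K) * Φ C := by
  have h1 : ∀ i ∈ R, ∑ C ∈ (R.erase i).powerset, Φ (insert i C)
      = ∑ C ∈ R.powerset, if i ∈ C then Φ C else 0 := by
    intro i hi
    rw [← Finset.sum_filter]
    refine Finset.sum_nbij' (fun C => insert i C) (fun C => C.erase i) ?_ ?_ ?_ ?_ ?_
    · intro C hC
      simp only [Finset.mem_powerset, Finset.mem_filter] at hC ⊢
      refine ⟨?_, Finset.mem_insert_self i C⟩
      exact Finset.insert_subset hi (hC.trans (Finset.erase_subset i R))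
    · intro C hC
      simp only [Finset.mem_powerset, Finset.mem_filter] at hC ⊢
      exact Finset.erase_subset_erase i hC.1
    · intro C hC
      simp only [Finset.mem_powerset] at hC
      exact Finset.erase_insert (fun h => (Finset.notMem_erase i R) (hC h))
    · intro C hC
      simp only [Finset.mem_filter] at hC
      exact Finset.insert_erase hC.2
    · intro C hC
      rfl
  rw [Finset.sum_congr rfl h1, Finset.sum_comm]
  refine Finset.sum_congr rfl ?_
  intro C hC
  rw [Finset.mem_powerset] at hC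
  rw [← Finset.sum_filter, Finset.filter_mem_eq_inter, Finset.inter_eq_right.mpr hC,
    Finset.sum_const, nsmul_eq_mul]

/-- the general term in the closed form for `S`. -/
def F (g : Fin n → Fin n → K) (h : Fin n → K) (R C : Finset (Fin n)) : K :=
  (-1) ^ C.card * (C.card.factorial : K) * (∑ j, h j * ∏ i ∈ C, g i j) * T g (R \ C)
    / (((n - R.card + C.card).descFactorial C.card : ℕ) : K)

lemma S_closed (g : Fin n → Fin n → K) (m : ℕ) : ∀ (h : Fin n → K) (R : Finset (Fin n)),
    R.card = m → S g h R = ∑ C ∈ R.powerset, F g h R C := by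
  induction m with
  | zero =>
    intro h R hR
    rw [Finset.card_eq_zero] at hR
    subst hR
    rw [S_rec]
    simp [F]
  | succ m ih =>
    intro h R hR
    rw [S_rec]
    have hle : R.card ≤ n := by simpa using Finset.card_le_univ R
    have key : ∀ i ∈ R, (((n - R.card + 1 : ℕ) : K))⁻¹ * S g (fun j => h j * g i j) (R.erase i)
        = ∑ C ∈ (R.erase i).powerset, (-(F g h R (insert i C)) / ((insert i C).card : K)) := by
      intro i hi
      rw [ih _ (R.erase i) (by rw [Finset.card_erase_of_mem hi]; omega), Finset.mul_sum]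
      refine Finset.sum_congr rfl ?_
      intro C hC
      rw [Finset.mem_powerset] at hC
      have hiC : i ∉ C := fun h => (Finset.notMem_erase i R) (hC h)
      unfold F
      rw [Finset.card_insert_of_notMem hiC, Finset.card_erase_of_mem hi]
      have e1 : (R.erase i) \ C = R \ (insert i C) := by
        ext x; simp only [Finset.mem_sdiff, Finset.mem_erase, Finset.mem_insert]; tauto
      have e2 : (∑ j, h j * g i j * ∏ l ∈ C, g l j) = ∑ j, h j * ∏ l ∈ insert i C, g l j := by
        refine Finset.sum_congr rfl ?_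
        intro j _
        rw [Finset.prod_insert hiC]; ring
      rw [e1, e2]
      have e3 : n - (R.card - 1) + C.card = n - R.card + 1 + C.card := by omega
      have e4 : n - R.card + (C.card + 1) = n - R.card + 1 + C.card := by omega
      rw [e3, e4]
      have e5 : (n - R.card + 1 + C.card).descFactorial (C.card + 1)
          = (n - R.card + 1) * (n - R.card + 1 + C.card).descFactorial C.card := by
        rw [Nat.descFactorial_succ]
        congr 1
        omega
      rw [e5, Nat.factorial_succ]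
      have hne1 : ((n - R.card + 1 : ℕ) : K) ≠ 0 := by rw [Nat.cast_ne_zero]; omega
      have hne2 : (((n - R.card + 1 + C.card).descFactorial C.card : ℕ) : K) ≠ 0 := by
        rw [Nat.cast_ne_zero]
        exact (Nat.descFactorial_pos.mpr (by omega)).ne'
      have hne3 : ((C.card + 1 : ℕ) : K) ≠ 0 := by rw [Nat.cast_ne_zero]; omega
      push_cast at hne1 hne2 hne3 ⊢
      field_simp
      ring
    rw [Finset.sum_congr rfl key,
      sum_insert_powerset R (fun C => -(F g h R C) / ((C.card : ℕ) : K))]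
    have h0 : F g h R ∅ = (∑ j, h j) * T g R := by simp [F]
    rw [← Finset.add_sum_erase _ _ (Finset.empty_mem_powerset R),
      ← Finset.add_sum_erase _ _ (Finset.empty_mem_powerset R), h0]
    simp only [Finset.card_empty, Nat.cast_zero, zero_mul, zero_add]
    rw [sub_eq_add_neg, ← Finset.sum_neg_distrib]
    congr 1
    refine Finset.sum_congr rfl ?_
    intro C hC
    have hC' : C ≠ ∅ := (Finset.mem_erase.mp hC).1
    have : ((C.card : ℕ) : K) ≠ 0 := by
      rw [Nat.cast_ne_zero]
      exact (Finset.card_pos.mpr (Finset.nonempty_iff_ne_empty.mpr hC')).ne'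
    field_simp

omit [CharZero K] in
lemma T_insert (g : Fin n → Fin n → K) (R : Finset (Fin n)) {a : Fin n} (ha : a ∉ R) :
    ((n - R.card : ℕ) : K) * T g (insert a R) = S g (g a) R := by
  rw [S_eq_mul g (g a) R ha]
  congr 1
  unfold T
  refine Finset.sum_congr rfl ?_
  intro σ _
  rw [Finset.prod_insert ha]

end Avg

section Val

variable {K : Type*} [Field K] [CharZero K]

/-- `x` is `p ^ m` times a `p`-integral rational number. -/
def Dv (p m : ℕ) (x : K) : Prop :=
  ∃ (a : ℤ) (b : ℕ), b.Coprime p ∧ (b : K) * x = (p : K) ^ m * (a : K)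

omit [CharZero K] in
lemma Dv.zero (p m : ℕ) : Dv p m (0 : K) := ⟨0, 1, Nat.coprime_one_left p, by simp⟩

omit [CharZero K] in
lemma Dv.add {p m : ℕ} {x y : K} (hx : Dv p m x) (hy : Dv p m y) : Dv p m (x + y) := by
  obtain ⟨a, b, hb, h⟩ := hx
  obtain ⟨c, d, hd, h'⟩ := hy
  refine ⟨a * d + c * b, b * d, Nat.Coprime.mul_left hb hd, ?_⟩
  push_cast
  linear_combination (d : K) * h + (b : K) * h'

omit [CharZero K] in
lemma Dv.mul {p m l : ℕ} {x y : K} (hx : Dv p m x) (hy : Dv p l y) : Dv p (m + l) (x * y) := by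
  obtain ⟨a, b, hb, h⟩ := hx
  obtain ⟨c, d, hd, h'⟩ := hy
  refine ⟨a * c, b * d, Nat.Coprime.mul_left hb hd, ?_⟩
  push_cast
  rw [pow_add]
  calc (b : K) * d * (x * y) = ((b : K) * x) * (d * y) := by ring
    _ = _ := by rw [h, h']; ring

omit [CharZero K] in
lemma Dv.mono {p m l : ℕ} {x : K} (hx : Dv p m x) (hl : l ≤ m) : Dv p l x := by
  obtain ⟨a, b, hb, h⟩ := hx
  refine ⟨p ^ (m - l) * a, b, hb, ?_⟩
  rw [h]
  push_cast
  rw [← mul_assoc, ← pow_add]
  congr 2
  omega

omit [CharZero K] in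
lemma Dv.sum {ι : Type*} {p m : ℕ} (s : Finset ι) (f : ι → K) (h : ∀ i ∈ s, Dv p m (f i)) :
    Dv p m (∑ i ∈ s, f i) := by
  classical
  induction s using Finset.induction_on with
  | empty => simpa using Dv.zero p m
  | insert a s ha ih =>
    rw [Finset.sum_insert ha]
    exact (h a (Finset.mem_insert_self a s)).add
      (ih (fun i hi => h i (Finset.mem_insert_of_mem hi)))

omit [CharZero K] in
lemma Dv.int (p : ℕ) (a : ℤ) : Dv p 0 (a : K) := ⟨a, 1, Nat.coprime_one_left p, by simp⟩

omit [CharZero K] in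
lemma Dv.nat {p : ℕ} (a : ℕ) : Dv p (padicValNat p a) (a : K) := by
  obtain ⟨c, hc⟩ := pow_padicValNat_dvd (p := p) (n := a)
  refine ⟨c, 1, Nat.coprime_one_left p, ?_⟩
  conv_lhs => rw [hc]
  push_cast
  ring

lemma Dv.of_mul {p : ℕ} [hp : Fact p.Prime] {m : ℕ} {x : K} {D : ℕ} (hD : D ≠ 0)
    (h : Dv p (m + padicValNat p D) ((D : K) * x)) : Dv p m x := by
  obtain ⟨a, b, hb, h⟩ := h
  obtain ⟨c, hc⟩ := pow_padicValNat_dvd (p := p) (n := D)
  have hcp : c.Coprime p := by
    rw [Nat.coprime_comm, hp.out.coprime_iff_not_dvd]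
    intro hdvd
    obtain ⟨e, he⟩ := hdvd
    have : p ^ (padicValNat p D + 1) ∣ D := by
      refine ⟨e, ?_⟩
      rw [pow_succ, mul_assoc, ← he]; exact hc
    exact absurd this (pow_succ_padicValNat_not_dvd hD)
  refine ⟨a, b * c, Nat.Coprime.mul_left hb hcp, ?_⟩
  have hp0 : (p : K) ^ (padicValNat p D) ≠ 0 :=
    pow_ne_zero _ (by exact_mod_cast hp.out.ne_zero)
  apply mul_left_cancel₀ hp0
  have hc' : (D : K) = (p : K) ^ (padicValNat p D) * c := by
    conv_lhs => rw [hc]
    push_cast; ring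
  rw [hc', pow_add] at h
  push_cast
  linear_combination h

lemma Dv.not_int {p : ℕ} [hp : Fact p.Prime] {m : ℕ} {z : ℤ} (h : Dv p m (z : K)) :
    (p : ℤ) ^ m ∣ z := by
  obtain ⟨a, b, hb, h⟩ := h
  have h' : (b : ℤ) * z = (p : ℤ) ^ m * a := by exact_mod_cast h
  have : IsCoprime ((p : ℤ) ^ m) (b : ℤ) := by
    apply IsCoprime.pow_left
    exact (Nat.isCoprime_iff_coprime.mpr hb).symm
  exact this.dvd_of_dvd_mul_left ⟨a, h'⟩

/-- the key estimate: `c + 1` consecutive integers below `p ^ k`. -/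
lemma val_desc {p k N c : ℕ} [hp : Fact p.Prime] (hN : N < p ^ k) (hc : c + 1 ≤ N) :
    padicValNat p (N.descFactorial (c + 1)) + 1 ≤ k + padicValNat p c.factorial := by
  have hk : k ≠ 0 := by
    rintro rfl
    simp at hN
    omega
  rw [Nat.descFactorial_eq_factorial_mul_choose, padicValNat.mul (Nat.factorial_ne_zero _)
    (Nat.choose_pos hc).ne', Nat.factorial_succ, padicValNat.mul (Nat.succ_ne_zero c)
    (Nat.factorial_ne_zero c)]
  try rw [Nat.succ_eq_add_one]
  have hlog : Nat.log p N < k := Nat.log_lt_of_lt_pow (by omega) hN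
  rw [padicValNat_choose hc hlog]
  have hsub : {i ∈ Finset.Ico 1 k | p ^ i ≤ (c + 1) % p ^ i + (N - (c + 1)) % p ^ i}
      ⊆ Finset.Ico (padicValNat p (c + 1) + 1) k := by
    intro i hi
    rw [Finset.mem_filter, Finset.mem_Ico] at hi
    rw [Finset.mem_Ico]
    refine ⟨?_, hi.1.2⟩
    by_contra hlt
    have hle : i ≤ padicValNat p (c + 1) := by omega
    have hdvd : p ^ i ∣ c + 1 := (pow_dvd_pow p hle).trans pow_padicValNat_dvd
    rw [Nat.mod_eq_zero_of_dvd hdvd, zero_add] at hi
    exact absurd (Nat.mod_lt (N - (c + 1)) (pow_pos hp.out.pos i)) (not_lt.mpr hi.2)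
  have hcard := Finset.card_le_card hsub
  rw [Nat.card_Ico] at hcard
  have hv : padicValNat p (c + 1) < k := by
    by_contra hge
    have : p ^ k ∣ c + 1 := (pow_dvd_pow p (not_lt.mp hge)).trans pow_padicValNat_dvd
    exact absurd (Nat.le_of_dvd (Nat.succ_pos c) this) (by omega)
  omega

end Val

section Main

variable {K : Type*} [Field K] [CharZero K] {n : ℕ}

open Polynomial

lemma T_dv {p k : ℕ} [hp : Fact p.Prime] (hnk : n < p ^ k) (y : Fin n → K)
    (hy : ∀ f : ℤ[X], f.coeff 0 = 0 → Dv p k (∑ j, aeval (y j) f))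
    (f : Fin n → ℤ[X]) (hf : ∀ i, (f i).coeff 0 = 0) (m : ℕ) :
    ∀ R : Finset (Fin n), R.card = m →
      Dv p (padicValNat p n.factorial + (if m = 0 then 0 else 1))
        (T (fun i j => aeval (y j) (f i)) R) := by
  induction m using Nat.strong_induction_on with
  | _ m ih =>
    intro R hR
    rcases Nat.eq_zero_or_pos m with hm | hm
    · subst hm
      rw [Finset.card_eq_zero] at hR
      subst hR
      simp only [T, Finset.prod_empty, Finset.sum_const, Finset.card_univ, Fintype.card_perm,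
        Fintype.card_fin, nsmul_eq_mul, mul_one, if_true, add_zero]
      exact Dv.nat _
    · obtain ⟨a, ha⟩ := Finset.card_pos.mp (hR ▸ hm : 0 < R.card)
      obtain ⟨R', haR', rfl⟩ : ∃ R', a ∉ R' ∧ insert a R' = R :=
        ⟨R.erase a, Finset.notMem_erase a R, Finset.insert_erase ha⟩
      rw [Finset.card_insert_of_notMem haR'] at hR
      have hle : R'.card + 1 ≤ n := by
        have := Finset.card_le_univ (insert a R')
        rw [Finset.card_insert_of_notMem haR', Fintype.card_fin] at this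
        exact this
      have hne : ((n - R'.card : ℕ) : K) ≠ 0 := by rw [Nat.cast_ne_zero]; omega
      have hT : T (fun i j => aeval (y j) (f i)) (insert a R')
          = ∑ C ∈ R'.powerset, ((n - R'.card : ℕ) : K)⁻¹ *
            F (fun i j => aeval (y j) (f i)) (fun j => aeval (y j) (f a)) R' C := by
        rw [← Finset.mul_sum, ← S_closed _ _ _ R' rfl, ← T_insert _ R' haR',
          inv_mul_cancel_left₀ hne]
      rw [hT, if_neg (by omega)]
      apply Dv.sum
      intro C hC
      rw [Finset.mem_powerset] at hC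
      have hCc : C.card ≤ R'.card := Finset.card_le_card hC
      set N := n - R'.card + C.card with hN
      have hD : N.descFactorial (C.card + 1)
          = (n - R'.card) * N.descFactorial C.card := by
        rw [Nat.descFactorial_succ]
        congr 1
        omega
      have hDne : N.descFactorial (C.card + 1) ≠ 0 :=
        (Nat.descFactorial_pos.mpr (by omega)).ne'
      apply Dv.of_mul hDne
      have hval := val_desc (p := p) (k := k) (N := N) (c := C.card) (by omega) (by omega)
      have hdiff : (R' \ C).card = R'.card - C.card := Finset.card_sdiff_of_subset hC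
      have h1 := ih (R'.card - C.card) (by omega) (R' \ C) hdiff
      have h1' : Dv p (padicValNat p n.factorial)
          (T (fun i j => aeval (y j) (f i)) (R' \ C)) := h1.mono (by omega)
      have h2 : Dv p k (∑ j, aeval (y j) (f a) * ∏ i ∈ C, aeval (y j) (f i)) := by
        have := hy (f a * ∏ i ∈ C, f i) (by
          rw [Polynomial.mul_coeff_zero, hf a, zero_mul])
        simpa [map_mul, map_prod] using this
      have h3 : Dv p (padicValNat p C.card.factorial)
          ((-1) ^ C.card * (C.card.factorial : K)) := by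
        have e : Dv p 0 ((-1 : K) ^ C.card) := by
          have := Dv.int (K := K) p ((-1) ^ C.card)
          simpa using this
        have := e.mul (Dv.nat (K := K) (p := p) C.card.factorial)
        simpa using this
      have h4 := (h3.mul h2).mul h1'
      have hcalc : ((N.descFactorial (C.card + 1) : ℕ) : K) *
          (((n - R'.card : ℕ) : K)⁻¹ *
            F (fun i j => aeval (y j) (f i)) (fun j => aeval (y j) (f a)) R' C)
          = (-1) ^ C.card * (C.card.factorial : K) *
            (∑ j, aeval (y j) (f a) * ∏ i ∈ C, aeval (y j) (f i)) *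
            T (fun i j => aeval (y j) (f i)) (R' \ C) := by
        have hne2 : ((N.descFactorial C.card : ℕ) : K) ≠ 0 := by
          rw [Nat.cast_ne_zero]
          exact (Nat.descFactorial_pos.mpr (by omega)).ne'
        unfold F
        rw [hD, ← hN]
        push_cast at hne ⊢
        field_simp
      rw [hcalc]
      exact h4.mono (by omega)

theorem avg_ne_zero {p k : ℕ} [hp : Fact p.Prime] (hnk : n < p ^ k) (y : Fin n → K)
    (hy : ∀ f : ℤ[X], f.coeff 0 = 0 → Dv p k (∑ j, aeval (y j) f))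
    (f : Fin n → ℤ[X]) (hf : ∀ i, ¬ (p : ℤ) ∣ (f i).coeff 0) :
    ∑ σ : Perm (Fin n), ∏ i, aeval (y (σ i)) (f i) ≠ 0 := by
  intro h0
  set g : Fin n → ℤ[X] := fun i => f i - C ((f i).coeff 0) with hg
  have hg0 : ∀ i, (g i).coeff 0 = 0 := by intro i; simp [hg]
  have hsplit : ∀ i, f i = g i + C ((f i).coeff 0) := by intro i; simp [hg]
  have hexp : ∑ σ : Perm (Fin n), ∏ i, aeval (y (σ i)) (f i)
      = ∑ R ∈ (univ : Finset (Fin n)).powerset,
        (((∏ i ∈ univ \ R, (f i).coeff 0 : ℤ)) : K) * T (fun i j => aeval (y j) (g i)) R := by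
    unfold T
    simp_rw [Finset.mul_sum]
    rw [Finset.sum_comm]
    refine Finset.sum_congr rfl ?_
    intro σ _
    have : ∀ i, aeval (y (σ i)) (f i) = aeval (y (σ i)) (g i) + (((f i).coeff 0 : ℤ) : K) := by
      intro i
      conv_lhs => rw [hsplit i]
      simp
    simp_rw [this]
    rw [Finset.prod_add]
    refine Finset.sum_congr rfl ?_
    intro R _
    push_cast
    ring
  rw [hexp, ← Finset.add_sum_erase _ _ (Finset.empty_mem_powerset univ)] at h0
  have hrest : Dv p (padicValNat p n.factorial + 1)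
      (∑ R ∈ (univ : Finset (Fin n)).powerset.erase ∅,
        (((∏ i ∈ univ \ R, (f i).coeff 0 : ℤ)) : K) *
          T (fun i j => aeval (y j) (g i)) R) := by
    apply Dv.sum
    intro R hR
    have hR' : R ≠ ∅ := (Finset.mem_erase.mp hR).1
    have hc : R.card ≠ 0 := by rwa [Ne, Finset.card_eq_zero]
    have h1 := T_dv hnk y hy g hg0 R.card R rfl
    rw [if_neg hc] at h1
    have := (Dv.int (K := K) p (∏ i ∈ univ \ R, (f i).coeff 0)).mul h1
    simpa only [zero_add] using this
  have hT0 : T (fun i j => aeval (y j) (g i)) (∅ : Finset (Fin n)) = (n.factorial : K) := by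
    simp [T, Fintype.card_perm]
  rw [hT0, Finset.sdiff_empty] at h0
  have h1 : Dv p (padicValNat p n.factorial + 1)
      (((-(∏ i, (f i).coeff 0) * n.factorial : ℤ)) : K) := by
    have : (((-(∏ i, (f i).coeff 0) * n.factorial : ℤ)) : K)
        = ∑ R ∈ (univ : Finset (Fin n)).powerset.erase ∅,
        (((∏ i ∈ univ \ R, (f i).coeff 0 : ℤ)) : K) *
          T (fun i j => aeval (y j) (g i)) R := by
      push_cast at h0 ⊢
      linear_combination -h0
    rw [this]; exact hrest
  have h2 := Dv.not_int h1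
  have hpp : Prime (p : ℤ) := Nat.prime_iff_prime_int.mp hp.out
  have h3 : IsCoprime ((p : ℤ) ^ (padicValNat p n.factorial + 1)) (-(∏ i, (f i).coeff 0)) := by
    apply IsCoprime.pow_left
    rw [IsCoprime.neg_right_iff]
    apply IsCoprime.prod_right
    intro i _
    exact (Prime.coprime_iff_not_dvd hpp).mpr (hf i)
  have h4 := h3.dvd_of_dvd_mul_left h2
  have h5 : p ^ (padicValNat p n.factorial + 1) ∣ n.factorial := by exact_mod_cast h4
  exact absurd h5 (pow_succ_padicValNat_not_dvd (Nat.factorial_ne_zero n))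

end Main


section Crit

variable {n : ℕ} {K : Type*} [Field K]

/-- the non-zero residues `±(e+1)`, indexed by `Fin n × Bool`. -/
def chi (n : ℕ) (c : Fin n × Bool) : ZMod (2 * n + 1) :=
  if c.2 then -((c.1 : ℕ) + 1 : ZMod (2 * n + 1)) else ((c.1 : ℕ) + 1 : ZMod (2 * n + 1))

/-- endpoints. -/
def pt (x d : Fin n → ZMod (2 * n + 1)) (r : Fin n × Bool) : ZMod (2 * n + 1) :=
  if r.2 then x r.1 + d r.1 else x r.1

lemma nat_cast_inj {a b : ℕ} (ha : a < 2 * n + 1) (hb : b < 2 * n + 1)
    (h : (a : ZMod (2 * n + 1)) = b) : a = b := by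
  have := (ZMod.natCast_eq_natCast_iff' a b (2 * n + 1)).mp h
  rwa [Nat.mod_eq_of_lt ha, Nat.mod_eq_of_lt hb] at this

lemma chi_conj (c : Fin n × Bool) : chi n (c.1, !c.2) = - chi n c := by
  rcases c with ⟨e, b⟩
  cases b <;> simp [chi]

lemma chi_ne_zero (c : Fin n × Bool) : chi n c ≠ 0 := by
  rcases c with ⟨e, b⟩
  have h1 : (((e : ℕ) + 1 : ℕ) : ZMod (2 * n + 1)) ≠ 0 := by
    intro h
    have := nat_cast_inj (n := n) (a := e + 1) (b := 0) (by omega) (by omega) (by simpa using h)
    omega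
  push_cast at h1
  cases b
  · simpa [chi] using h1
  · have : -(((e : ℕ) : ZMod (2 * n + 1)) + 1) ≠ 0 := neg_ne_zero.mpr h1
    simpa [chi] using this

lemma chi_inj : Function.Injective (chi n) := by
  rintro ⟨e, b⟩ ⟨e', b'⟩ h
  have key : ∀ a a' : Fin n, (((a : ℕ) + 1 : ZMod (2 * n + 1))) = -((a' : ℕ) + 1) → False := by
    intro a a' h
    have h' : (((a : ℕ) + 1 + ((a' : ℕ) + 1) : ℕ) : ZMod (2 * n + 1)) = ((0 : ℕ) : ZMod (2 * n + 1)) := by
      push_cast
      rw [h]; ring
    have := nat_cast_inj (n := n) (by omega) (by omega) h'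
    omega
  have key2 : ∀ a a' : Fin n, (((a : ℕ) + 1 : ZMod (2 * n + 1))) = ((a' : ℕ) + 1) → a = a' := by
    intro a a' h
    have h' : (((a : ℕ) + 1 : ℕ) : ZMod (2 * n + 1)) = (((a' : ℕ) + 1 : ℕ) : ZMod (2 * n + 1)) := by
      push_cast
      exact h
    have := nat_cast_inj (n := n) (by omega) (by omega) h'
    exact Fin.ext (by omega)
  cases b <;> cases b'
  · have h2 : (((e : ℕ) + 1 : ZMod (2 * n + 1))) = ((e' : ℕ) + 1) := by simpa [chi] using h
    rw [key2 e e' h2]
  · have h2 : (((e : ℕ) + 1 : ZMod (2 * n + 1))) = -((e' : ℕ) + 1) := by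
      simpa only [chi, if_true, Bool.false_eq_true, if_false] using h
    exact (key e e' h2).elim
  · have h2 : -((e : ℕ) + 1 : ZMod (2 * n + 1)) = ((e' : ℕ) + 1) := by
      simpa only [chi, if_true, Bool.false_eq_true, if_false] using h
    exact (key e' e h2.symm).elim
  · have h2 : -((e : ℕ) + 1 : ZMod (2 * n + 1)) = -((e' : ℕ) + 1) := by
      simpa only [chi, if_true, Bool.false_eq_true, if_false] using h
    rw [key2 e e' (neg_injective h2)]

/-- flips of the second coordinate. -/
def flipPerm (b : Bool) : Perm Bool := if b then Equiv.boolNot else 1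

lemma sign_flipPerm (b : Bool) : Perm.sign (flipPerm b) = if b then -1 else 1 := by
  cases b
  · simp [flipPerm]
  · simp only [flipPerm, if_true]; decide

lemma flipPerm_apply (b c : Bool) : flipPerm b c = xor c b := by
  cases b <;> cases c <;> rfl

/-- the permutations of `Fin n × Bool` that commute with flipping. -/
def Phi (q : Perm (Fin n) × (Fin n → Bool)) : Perm (Fin n × Bool) :=
  (Equiv.prodCongrLeft fun _ : Bool => q.1) * (Equiv.prodCongrRight fun i => flipPerm (q.2 i))

lemma Phi_apply (q : Perm (Fin n) × (Fin n → Bool)) (i : Fin n) (b : Bool) :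
    Phi q (i, b) = (q.1 i, xor b (q.2 i)) := by
  simp [Phi, flipPerm_apply]

lemma sign_Phi (q : Perm (Fin n) × (Fin n → Bool)) :
    Perm.sign (Phi q) = ∏ i, (if q.2 i then (-1 : ℤˣ) else 1) := by
  unfold Phi
  rw [Equiv.Perm.sign_mul, Equiv.Perm.sign_prodCongrLeft, Equiv.Perm.sign_prodCongrRight]
  simp only [sign_flipPerm, Fintype.prod_bool, Int.units_mul_self, one_mul]

lemma Phi_inj : Function.Injective (Phi (n := n)) := by
  intro q q' h
  have h1 : ∀ i, (q.1 i, q.2 i) = (q'.1 i, q'.2 i) := by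
    intro i
    have := congrArg (fun τ => τ (i, false)) h
    simpa [Phi_apply] using this
  refine Prod.ext (Equiv.ext fun i => (Prod.ext_iff.mp (h1 i)).1)
    (funext fun i => (Prod.ext_iff.mp (h1 i)).2)

lemma mem_range_Phi (τ : Perm (Fin n × Bool))
    (h : ∀ i, τ (i, true) = ((τ (i, false)).1, !(τ (i, false)).2)) : ∃ q, Phi q = τ := by
  have hinj : Function.Injective fun i => (τ (i, false)).1 := by
    intro i j hij
    simp only at hij
    by_cases h2 : (τ (i, false)).2 = (τ (j, false)).2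
    · have : τ (i, false) = τ (j, false) := Prod.ext hij h2
      have := τ.injective this
      exact (Prod.ext_iff.mp this).1
    · have h3 : (!(τ (i, false)).2) = (τ (j, false)).2 := by
        cases h4 : (τ (i, false)).2 <;> cases h5 : (τ (j, false)).2 <;> simp_all
      have : τ (i, true) = τ (j, false) := by
        rw [h i]; exact Prod.ext hij h3
      have := τ.injective this
      exact absurd (Prod.ext_iff.mp this).2 (by simp)
  refine ⟨(Equiv.ofBijective _ (Finite.injective_iff_bijective.mp hinj),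
    fun i => (τ (i, false)).2), ?_⟩
  apply Equiv.ext
  rintro ⟨i, b⟩
  rw [Phi_apply]
  cases b
  · simp
  · rw [h i]; simp

/-- the square matrix attached to a choice of starting points. -/
def W (ψ : AddChar (ZMod (2 * n + 1)) K) (x d : Fin n → ZMod (2 * n + 1)) :
    Matrix (Fin n × Bool) (Fin n × Bool) K := fun r c => ψ (chi n c * pt x d r)

lemma sum_det (ψ : AddChar (ZMod (2 * n + 1)) K) (hψ : ψ.IsPrimitive)
    (d : Fin n → ZMod (2 * n + 1)) :
    ∑ x : Fin n → ZMod (2 * n + 1), (W ψ x d).det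
      = ((2 * n + 1 : ℕ) : K) ^ n *
        ∑ σ : Perm (Fin n), ∏ i, (ψ (chi n (σ i, true) * d i) - ψ (chi n (σ i, false) * d i)) := by
  have h1 : ∀ x : Fin n → ZMod (2 * n + 1), (W ψ x d).det
      = ∑ τ : Perm (Fin n × Bool), ((Perm.sign τ : ℤ) : K) *
        ∏ i, (ψ (chi n (τ (i, true)) * (x i + d i)) * ψ (chi n (τ (i, false)) * x i)) := by
    intro x
    rw [← Matrix.det_transpose, Matrix.det_apply']
    refine Finset.sum_congr rfl ?_
    intro τ _
    congr 1
    rw [Fintype.prod_prod_type]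
    refine Finset.prod_congr rfl ?_
    intro i _
    rw [Fintype.prod_bool]
    simp [W, pt, Matrix.transpose_apply]
  simp_rw [h1]
  rw [Finset.sum_comm]
  have h2 : ∀ τ : Perm (Fin n × Bool),
      ∑ x : Fin n → ZMod (2 * n + 1), ((Perm.sign τ : ℤ) : K) *
        ∏ i, (ψ (chi n (τ (i, true)) * (x i + d i)) * ψ (chi n (τ (i, false)) * x i))
      = ((Perm.sign τ : ℤ) : K) * ∏ i, (ψ (chi n (τ (i, true)) * d i) *
          (if chi n (τ (i, true)) + chi n (τ (i, false)) = 0 then ((2 * n + 1 : ℕ) : K) else 0)) := by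
    intro τ
    rw [← Finset.mul_sum]
    congr 1
    have := Finset.prod_univ_sum (fun _ : Fin n => (univ : Finset (ZMod (2 * n + 1))))
      (fun i y => ψ (chi n (τ (i, true)) * (y + d i)) * ψ (chi n (τ (i, false)) * y))
    rw [Fintype.piFinset_univ] at this
    rw [← this]
    refine Finset.prod_congr rfl ?_
    intro i _
    have h3 : ∀ y : ZMod (2 * n + 1),
        ψ (chi n (τ (i, true)) * (y + d i)) * ψ (chi n (τ (i, false)) * y)
        = ψ (chi n (τ (i, true)) * d i) *
          ψ (y * (chi n (τ (i, true)) + chi n (τ (i, false)))) := by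
      intro y
      rw [← AddChar.map_add_eq_mul, ← AddChar.map_add_eq_mul]
      congr 1
      ring
    simp_rw [h3]
    rw [← Finset.mul_sum, AddChar.sum_mulShift _ hψ, ZMod.card]
    congr 1
    split_ifs <;> simp
  simp_rw [h2]
  rw [← Finset.sum_of_injOn (s := (univ : Finset (Perm (Fin n) × (Fin n → Bool))))
    (f := fun q => ((2 * n + 1 : ℕ) : K) ^ n *
      ∏ i, ((if q.2 i then (-1 : K) else 1) * ψ (chi n (q.1 i, !q.2 i) * d i))) Phi
    (Phi_inj.injOn) (fun _ _ => by simp)]
  · rw [← Finset.mul_sum]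
    congr 1
    rw [Fintype.sum_prod_type]
    refine Finset.sum_congr rfl ?_
    intro σ _
    have := Finset.prod_univ_sum (fun _ : Fin n => (univ : Finset Bool))
      (fun i b => ((if b then (-1 : K) else 1) * ψ (chi n (σ i, !b) * d i)))
    rw [Fintype.piFinset_univ] at this
    rw [← this]
    refine Finset.prod_congr rfl ?_
    intro i _
    rw [Fintype.sum_bool]
    simp only [if_true, Bool.not_true, Bool.not_false, Bool.false_eq_true, if_false]
    ring
  · intro τ _ hτ
    by_cases hall : ∀ i, chi n (τ (i, true)) + chi n (τ (i, false)) = 0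
    · exfalso
      apply hτ
      obtain ⟨q, hq⟩ := mem_range_Phi τ (fun i => by
        apply chi_inj
        have := chi_conj (τ (i, false))
        rw [this]
        exact eq_neg_of_add_eq_zero_left (hall i))
      exact ⟨q, by simp, hq⟩
    · push Not at hall
      obtain ⟨i, hi⟩ := hall
      rw [Finset.prod_eq_zero (Finset.mem_univ i), mul_zero]
      rw [if_neg hi, mul_zero]
  · intro q _
    rw [sign_Phi]
    have h4 : ∀ i, chi n (Phi q (i, true)) + chi n (Phi q (i, false)) = 0 := by
      intro i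
      have := chi_conj (n := n) (Phi q (i, false))
      rw [Phi_apply, Phi_apply] at *
      simp only [Bool.false_xor, Bool.true_xor] at *
      rw [this]; ring
    simp_rw [h4, if_true]
    simp_rw [Phi_apply, Bool.true_xor]
    rw [Finset.prod_mul_distrib (f := fun i => ψ (chi n (q.1 i, !q.2 i) * d i)),
      Finset.prod_const, Finset.card_univ, Fintype.card_fin, Finset.prod_mul_distrib]
    have h5 : (((∏ i, (if q.2 i then (-1 : ℤˣ) else 1) : ℤˣ) : ℤ) : K)
        = ∏ i, (if q.2 i then (-1 : K) else 1) := by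
      push_cast
      refine Finset.prod_congr rfl ?_
      intro i _
      split_ifs <;> simp
    rw [h5]
    ring

theorem criterion (ψ : AddChar (ZMod (2 * n + 1)) K) (hψ : ψ.IsPrimitive)
    (d : Fin n → ZMod (2 * n + 1))
    (h : ∑ σ : Perm (Fin n), ∏ i, (ψ (chi n (σ i, true) * d i) - ψ (chi n (σ i, false) * d i)) ≠ 0)
    (hv : ((2 * n + 1 : ℕ) : K) ≠ 0) :
    ∃ x : Fin n → ZMod (2 * n + 1), Function.Injective (pt x d) := by
  by_contra hno
  push Not at hno
  have h0 : ∑ x : Fin n → ZMod (2 * n + 1), (W ψ x d).det = 0 := by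
    apply Finset.sum_eq_zero
    intro x _
    have := hno x
    rw [Function.Injective] at this
    push Not at this
    obtain ⟨r, r', h1, h2⟩ := this
    exact Matrix.det_zero_of_row_eq h2 (by ext c; simp [W, h1])
  rw [sum_det ψ hψ d] at h0
  rcases mul_eq_zero.mp h0 with h1 | h1
  · exact pow_ne_zero n hv h1
  · exact h h1

end Crit

section Fin

variable {n : ℕ} {K : Type*} [Field K]

open Polynomial

/-- `G m` is the polynomial with `s ^ (2m+1) - s ^ (-(2m+1)) = (s - s⁻¹) * G m ((s - s⁻¹) ^ 2)`. -/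
noncomputable def G : ℕ → ℤ[X]
  | 0 => 1
  | 1 => X + 3
  | (m + 2) => (X + 2) * G (m + 1) - G m

lemma G_coeff_zero (m : ℕ) : (G m).coeff 0 = 2 * m + 1 := by
  have h : ∀ m, (G m).coeff 0 = 2 * m + 1 ∧ (G (m + 1)).coeff 0 = 2 * (m + 1) + 1 := by
    intro m
    induction m with
    | zero => simp [G]
    | succ m ih =>
      refine ⟨by rw [ih.2]; push_cast; ring, ?_⟩
      rw [G, coeff_sub, mul_coeff_zero, ih.1, ih.2]
      simp
      ring
  exact (h m).1

lemma G_eval {s t : K} (hst : s * t = 1) (m : ℕ) :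
    (s - t) * aeval ((s - t) ^ 2) (G m) = s ^ (2 * m + 1) - t ^ (2 * m + 1) := by
  have h : ∀ m, ((s - t) * aeval ((s - t) ^ 2) (G m) = s ^ (2 * m + 1) - t ^ (2 * m + 1)) ∧
      ((s - t) * aeval ((s - t) ^ 2) (G (m + 1))
        = s ^ (2 * (m + 1) + 1) - t ^ (2 * (m + 1) + 1)) := by
    intro m
    induction m with
    | zero =>
      constructor
      · simp [G]
      · simp only [G, map_add, aeval_X, map_ofNat]
        linear_combination -3 * (s - t) * hst
    | succ m ih =>
      refine ⟨ih.2, ?_⟩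
      rw [G, map_sub, map_mul, map_add, aeval_X, map_ofNat]
      have e : (s - t) * (((s - t) ^ 2 + 2) * aeval ((s - t) ^ 2) (G (m + 1))
          - aeval ((s - t) ^ 2) (G m))
          = ((s - t) ^ 2 + 2) * (s ^ (2 * (m + 1) + 1) - t ^ (2 * (m + 1) + 1))
            - (s ^ (2 * m + 1) - t ^ (2 * m + 1)) := by
        rw [← ih.1, ← ih.2]; ring
      rw [e]
      have e2 : s ^ (2 * (m + 1) + 1) * t ^ 2 = s ^ (2 * m + 1) := by
        have : s ^ (2 * (m + 1) + 1) * t ^ 2 = s ^ (2 * m + 1) * (s * t) ^ 2 := by ring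
        rw [this, hst]; ring
      have e3 : t ^ (2 * (m + 1) + 1) * s ^ 2 = t ^ (2 * m + 1) := by
        have : t ^ (2 * (m + 1) + 1) * s ^ 2 = t ^ (2 * m + 1) * (s * t) ^ 2 := by ring
        rw [this, hst]; ring
      linear_combination e2 - e3 - 2 * (s ^ (2 * (m + 1) + 1) - t ^ (2 * (m + 1) + 1)) * hst
  exact (h m).1

lemma psi_mul_nat (ψ : AddChar (ZMod (2 * n + 1)) K) (a : ZMod (2 * n + 1)) (N : ℕ) :
    ψ (a * (N : ZMod (2 * n + 1))) = ψ a ^ N := by
  rw [← AddChar.map_nsmul_eq_pow, nsmul_eq_mul, mul_comm a]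

lemma psi_ne_one (ψ : AddChar (ZMod (2 * n + 1)) K) (hψ : ψ.IsPrimitive)
    {a : ZMod (2 * n + 1)} (ha : a ≠ 0) : ψ a ≠ 1 := by
  intro h
  apply hψ ha
  ext x
  rw [AddChar.mulShift_apply, AddChar.one_apply]
  have : x = ((x.val : ℕ) : ZMod (2 * n + 1)) := by simp
  rw [this, psi_mul_nat, h, one_pow]

lemma sum_aeval (ψ : AddChar (ZMod (2 * n + 1)) K) (hψ : ψ.IsPrimitive) (Q : ℤ[X]) :
    ∃ z : ℤ, ∑ a : ZMod (2 * n + 1), aeval (ψ a) Q = ((2 * n + 1 : ℕ) : K) * z := by
  induction Q using Polynomial.induction_on' with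
  | add P Q hP hQ =>
    obtain ⟨z, hz⟩ := hP
    obtain ⟨w, hw⟩ := hQ
    refine ⟨z + w, ?_⟩
    simp only [map_add, Finset.sum_add_distrib, hz, hw]
    push_cast; ring
  | monomial m c =>
    refine ⟨c * (if ((m : ℕ) : ZMod (2 * n + 1)) = 0 then 1 else 0), ?_⟩
    have h1 : ∀ a : ZMod (2 * n + 1), aeval (ψ a) (monomial m c)
        = (c : K) * ψ (a * (m : ZMod (2 * n + 1))) := by
      intro a
      rw [psi_mul_nat, aeval_monomial]
      simp
    simp_rw [h1]
    rw [← Finset.mul_sum, AddChar.sum_mulShift _ hψ, ZMod.card]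
    split_ifs <;> push_cast <;> ring

lemma sum_pairs [CharZero K] (φ : ZMod (2 * n + 1) → K) (h0 : φ 0 = 0)
    (hneg : ∀ a, φ (-a) = φ a) :
    ∑ a : ZMod (2 * n + 1), φ a = 2 * ∑ j : Fin n, φ (chi n (j, false)) := by
  have himg : (univ : Finset (Fin n × Bool)).image (chi n) = univ.erase 0 := by
    apply Finset.eq_of_subset_of_card_le
    · intro a ha
      obtain ⟨c, _, rfl⟩ := Finset.mem_image.mp ha
      exact Finset.mem_erase.mpr ⟨chi_ne_zero c, Finset.mem_univ _⟩
    · rw [Finset.card_image_of_injective _ chi_inj, Finset.card_erase_of_mem (Finset.mem_univ _),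
        Finset.card_univ, Finset.card_univ, ZMod.card, Fintype.card_prod, Fintype.card_fin,
        Fintype.card_bool]
      omega
  rw [← Finset.add_sum_erase univ φ (Finset.mem_univ 0), h0, zero_add, ← himg,
    Finset.sum_image (fun a _ b _ h => chi_inj h), Fintype.sum_prod_type, Finset.mul_sum]
  refine Finset.sum_congr rfl ?_
  intro j _
  rw [Fintype.sum_bool]
  have : chi n (j, true) = - chi n (j, false) := chi_conj (n := n) (j, false)
  rw [this, hneg]
  ring

variable [CharZero K]

lemma power_sum_dv {p k : ℕ} [hp : Fact p.Prime] (hp2 : p ≠ 2) (hn : 2 * n + 1 = p ^ k)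
    (ψ : AddChar (ZMod (2 * n + 1)) K) (hψ : ψ.IsPrimitive) (f : ℤ[X]) (hf : f.coeff 0 = 0) :
    Dv p k (∑ j : Fin n,
      aeval ((ψ (chi n (j, false)) - (ψ (chi n (j, false)))⁻¹) ^ 2) f) := by
  obtain ⟨z, hz⟩ := sum_aeval ψ hψ (f.comp ((X - X ^ (2 * n)) ^ 2))
  have hneg : ∀ a : ZMod (2 * n + 1), ψ a ^ (2 * n) = (ψ a)⁻¹ := by
    intro a
    rw [← psi_mul_nat, ← AddChar.map_neg_eq_inv]
    congr 1
    have : (((2 * n : ℕ) : ZMod (2 * n + 1))) = -1 := by
      have h := ZMod.natCast_self (2 * n + 1)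
      push_cast at h ⊢
      exact eq_neg_of_add_eq_zero_left h
    rw [this]; ring
  have h1 : ∀ a : ZMod (2 * n + 1), aeval (ψ a) (f.comp ((X - X ^ (2 * n)) ^ 2))
      = aeval ((ψ a - (ψ a)⁻¹) ^ 2) f := by
    intro a
    rw [aeval_comp, map_pow, map_sub, map_pow, aeval_X, hneg]
  simp_rw [h1] at hz
  have h2 := sum_pairs (fun a => aeval ((ψ a - (ψ a)⁻¹) ^ 2) f) (by
      simp only [AddChar.map_zero_eq_one, inv_one, sub_self]
      rw [zero_pow two_ne_zero, ← Polynomial.coeff_zero_eq_aeval_zero', hf, map_zero]) (by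
      intro a
      simp only [AddChar.map_neg_eq_inv, inv_inv]
      congr 2
      ring)
  rw [h2] at hz
  refine ⟨z, 2, ?_, ?_⟩
  · exact (Nat.coprime_primes Nat.prime_two hp.out).mpr (Ne.symm hp2)
  · rw [Nat.cast_ofNat, hz, hn]; push_cast; ring

theorem per_ne_zero {p k : ℕ} [hp : Fact p.Prime] (hp2 : p ≠ 2) (hn : 2 * n + 1 = p ^ k)
    (ψ : AddChar (ZMod (2 * n + 1)) K) (hψ : ψ.IsPrimitive) (m : Fin n → ℕ)
    (hm : ∀ i, ¬ p ∣ 2 * m i + 1) :
    ∑ σ : Perm (Fin n), ∏ i,
      (ψ (chi n (σ i, true) * ((2 * m i + 1 : ℕ) : ZMod (2 * n + 1)))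
        - ψ (chi n (σ i, false) * ((2 * m i + 1 : ℕ) : ZMod (2 * n + 1)))) ≠ 0 := by
  set s : Fin n → K := fun j => ψ (chi n (j, false)) with hs
  have hs0 : ∀ j, s j ≠ 0 := fun j => by
    intro h
    have h1 : ψ (chi n (j, false)) * ψ (-chi n (j, false)) = 1 := by
      rw [← AddChar.map_add_eq_mul, add_neg_cancel, AddChar.map_zero_eq_one]
    rw [show ψ (chi n (j, false)) = 0 from h, zero_mul] at h1
    exact zero_ne_one h1
  have hterm : ∀ (i j : Fin n),
      ψ (chi n (j, true) * ((2 * m i + 1 : ℕ) : ZMod (2 * n + 1)))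
        - ψ (chi n (j, false) * ((2 * m i + 1 : ℕ) : ZMod (2 * n + 1)))
      = (-(s j - (s j)⁻¹)) * aeval ((s j - (s j)⁻¹) ^ 2) (G (m i)) := by
    intro i j
    have h1 : chi n (j, true) = - chi n (j, false) := chi_conj (n := n) (j, false)
    rw [psi_mul_nat, psi_mul_nat, h1, AddChar.map_neg_eq_inv, neg_mul,
      G_eval (mul_inv_cancel₀ (hs0 j))]
    ring
  have hprod : ∀ σ : Perm (Fin n), ∏ i,
      (ψ (chi n (σ i, true) * ((2 * m i + 1 : ℕ) : ZMod (2 * n + 1)))
        - ψ (chi n (σ i, false) * ((2 * m i + 1 : ℕ) : ZMod (2 * n + 1))))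
      = (∏ j, (-(s j - (s j)⁻¹))) * ∏ i, aeval ((s (σ i) - (s (σ i))⁻¹) ^ 2) (G (m i)) := by
    intro σ
    rw [← Equiv.prod_comp σ (fun j => (-(s j - (s j)⁻¹))), ← Finset.prod_mul_distrib]
    exact Finset.prod_congr rfl (fun i _ => hterm i (σ i))
  simp_rw [hprod]
  rw [← Finset.mul_sum]
  apply mul_ne_zero
  · rw [Finset.prod_ne_zero_iff]
    intro j _
    rw [neg_ne_zero, sub_ne_zero]
    intro h
    have h1 : ψ (chi n (j, false) + chi n (j, false)) = 1 := by
      rw [AddChar.map_add_eq_mul]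
      have : s j * s j = 1 := by
        nth_rewrite 2 [h]
        exact mul_inv_cancel₀ (hs0 j)
      exact this
    have h2 : chi n (j, false) + chi n (j, false) ≠ 0 := by
      intro h3
      have h4 : chi n (j, false) = - chi n (j, false) := eq_neg_of_add_eq_zero_left h3
      have h5 : chi n (j, true) = - chi n (j, false) := chi_conj (n := n) (j, false)
      rw [← h5] at h4
      have := chi_inj h4
      exact absurd (Prod.ext_iff.mp this).2 (by simp)
    exact psi_ne_one ψ hψ h2 h1
  · apply avg_ne_zero (p := p) (k := k) (by omega) (fun j => (s j - (s j)⁻¹) ^ 2)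
    · intro f hf
      exact power_sum_dv hp2 hn ψ hψ f hf
    · intro i
      rw [G_coeff_zero]
      intro h
      apply hm i
      exact_mod_cast h

end Fin

/-- The conjecture of Meszka, Pasotti and Pellegrini holds for prime powers `v = 2n+1 = p^k`
and all lists whose entries are coprime to `p`. -/
theorem result (p k n : ℕ) (hp : p.Prime) (hn : 2 * n + 1 = p ^ k) (L : Multiset ℕ)
    (hcard : Multiset.card L = n) (hL : ∀ x ∈ L, 1 ≤ x ∧ x ≤ n ∧ ¬ p ∣ x) :
    ∃ g : Fin n ⊕ Fin n → Fin (2 * n + 1), Function.Injective g ∧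
      Multiset.map
        (fun i : Fin n =>
          min (Int.natAbs (((g (Sum.inl i) : ℕ) : ℤ) - ((g (Sum.inr i) : ℕ) : ℤ)))
            (2 * n + 1 - Int.natAbs (((g (Sum.inl i) : ℕ) : ℤ) - ((g (Sum.inr i) : ℕ) : ℤ))))
        (Finset.univ : Finset (Fin n)).val = L := by
  have : Fact p.Prime := ⟨hp⟩
  -- a function enumerating the list
  obtain ⟨l, hl⟩ : ∃ l : Fin n → ℕ, Multiset.map l (Finset.univ : Finset (Fin n)).val = L := by
    induction L using Quotient.inductionOn with
    | _ l =>
      have hlen : l.length = n := by simpa using hcard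
      subst hlen
      refine ⟨l.get, ?_⟩
      rw [Fin.univ_val_map, List.ofFn_get]
      rfl
  have hl' : ∀ i, 1 ≤ l i ∧ l i ≤ n ∧ ¬ p ∣ l i := by
    intro i
    apply hL
    rw [← hl]
    exact Multiset.mem_map_of_mem l (Finset.mem_univ i)
  rcases Nat.eq_zero_or_pos n with h0 | hpos
  · subst h0
    refine ⟨fun r => r.elim (fun i => i.elim0) (fun i => i.elim0), ?_, ?_⟩
    · intro r
      rcases r with i | i <;> exact i.elim0
    · rw [← hl]
      rfl
  have hk : k ≠ 0 := by
    rintro rfl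
    simp at hn
    omega
  have hp2 : p ≠ 2 := by
    rintro rfl
    have : Even (2 ^ k) := (Nat.even_pow.mpr ⟨even_two, hk⟩)
    rw [← hn] at this
    exact absurd this (by simp)
  have hpv : p ∣ 2 * n + 1 := by rw [hn]; exact dvd_pow_self p hk
  -- odd representatives
  have hm : ∃ m : Fin n → ℕ, ∀ i, (2 * m i + 1 = l i ∨ 2 * m i + 1 = l i + (2 * n + 1)) := by
    refine ⟨fun i => if l i % 2 = 1 then (l i - 1) / 2 else (l i + 2 * n) / 2, ?_⟩
    intro i
    have := hl' i
    simp only
    split_ifs with h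
    · left; omega
    · right; omega
  obtain ⟨m, hm⟩ := hm
  have hmd : ∀ i, ((2 * m i + 1 : ℕ) : ZMod (2 * n + 1)) = (l i : ZMod (2 * n + 1)) := by
    intro i
    rcases hm i with h | h
    · rw [h]
    · rw [h, Nat.cast_add, ZMod.natCast_self, add_zero]
  have hmp : ∀ i, ¬ p ∣ 2 * m i + 1 := by
    intro i
    rcases hm i with h | h
    · rw [h]; exact (hl' i).2.2
    · rw [h]
      intro h2
      exact (hl' i).2.2 ((Nat.dvd_add_left hpv).mp h2)
  obtain ⟨x, hx⟩ := criterion (ZMod.stdAddChar (N := 2 * n + 1))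
    (ZMod.isPrimitive_stdAddChar (2 * n + 1)) (fun i => ((2 * m i + 1 : ℕ) : ZMod (2 * n + 1)))
    (per_ne_zero hp2 hn _ (ZMod.isPrimitive_stdAddChar (2 * n + 1)) m hmp)
    (by rw [Nat.cast_ne_zero]; omega)
  refine ⟨fun r => ⟨ZMod.val (pt x (fun i => ((2 * m i + 1 : ℕ) : ZMod (2 * n + 1)))
    (r.elim (fun i => (i, false)) (fun i => (i, true)))), ZMod.val_lt _⟩, ?_, ?_⟩
  · intro r r' h
    have h1 := ZMod.val_injective _ (Fin.mk.inj h)
    have h2 := hx h1
    rcases r with i | i <;> rcases r' with j | j <;> simp at h2 <;> simp [h2]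
  · rw [← hl]
    refine Multiset.map_congr rfl ?_
    intro i _
    simp only [Sum.elim_inl, Sum.elim_inr, pt, if_true, Bool.false_eq_true, if_false]
    have h3 := hl' i
    have h4 : (x i + ((2 * m i + 1 : ℕ) : ZMod (2 * n + 1))).val = ((x i).val + l i) % (2 * n + 1) := by
      rw [hmd i, ZMod.val_add, ZMod.val_natCast_of_lt (by omega)]
    rw [h4]
    have h5 := ZMod.val_lt (x i)
    rcases Nat.lt_or_ge ((x i).val + l i) (2 * n + 1) with h6 | h6
    · rw [Nat.mod_eq_of_lt h6]
      omega
    · rw [Nat.mod_eq_sub_mod h6, Nat.mod_eq_of_lt (by omega)]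
      omega

end Pool.Agent.Results.MP_6cccb1_co.PrimePowerCoprime
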