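import Pool.Agent.Helper90.NF.Place

/-!
The conjecture of Meszka, Pasotti and Pellegrini for `v = 3p`, `p ≥ 5` prime.
-/

set_option autoImplicit false

open Finset

namespace Pool.Agent.Results.MP_6cccb1_co.ThreeTimesPrime

open Pool.Agent.Helper90.NF

/-- from disjoint pairs in `ZMod N` to a near 1-factor. -/
lemma finish (n N : ℕ) (hN : N = 2 * n + 1) (e : Fin n → ℕ) (he : ∀ i, 1 ≤ e i ∧ e i ≤ n)
    (X Y : Fin n → ZMod N)
    (hinj : Function.Injective (fun r : Fin n × Bool => if r.2 then Y r.1 else X r.1))
    (hd : ∀ i, Y i = X i + e i ∨ X i = Y i + e i) :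
    ∃ g : Fin n ⊕ Fin n → Fin (2 * n + 1), Function.Injective g ∧
      Multiset.map
        (fun i : Fin n =>
          min (Int.natAbs (((g (Sum.inl i) : ℕ) : ℤ) - ((g (Sum.inr i) : ℕ) : ℤ)))
            (2 * n + 1 - Int.natAbs (((g (Sum.inl i) : ℕ) : ℤ) - ((g (Sum.inr i) : ℕ) : ℤ))))
        (Finset.univ : Finset (Fin n)).val = Multiset.map e (Finset.univ : Finset (Fin n)).val := by
  subst hN
  refine ⟨fun r => ⟨ZMod.val (r.elim X Y), ZMod.val_lt _⟩, ?_, ?_⟩
  · intro r r' h
    have h1 := ZMod.val_injective _ (Fin.mk.inj h)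
    rcases r with i | i <;> rcases r' with j | j
    · have h2 := @hinj (i, false) (j, false) h1
      simp only [Prod.mk.injEq, and_true] at h2
      rw [h2]
    · have h2 := @hinj (i, false) (j, true) h1
      simp at h2
    · have h2 := @hinj (i, true) (j, false) h1
      simp at h2
    · have h2 := @hinj (i, true) (j, true) h1
      simp only [Prod.mk.injEq, and_true] at h2
      rw [h2]
  · refine Multiset.map_congr rfl ?_
    intro i _
    simp only [Sum.elim_inl, Sum.elim_inr]
    have h3 := he i
    have key : ∀ a b : ZMod (2 * n + 1), b = a + e i →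
        (b.val = a.val + e i ∧ a.val + e i < 2 * n + 1) ∨
        (b.val + (2 * n + 1) = a.val + e i) := by
      intro a b hab
      have h4 : b.val = (a.val + e i) % (2 * n + 1) := by
        rw [hab, ZMod.val_add, ZMod.val_natCast_of_lt (by omega)]
      have h5 := ZMod.val_lt a
      rcases Nat.lt_or_ge (a.val + e i) (2 * n + 1) with h6 | h6
      · left
        rw [Nat.mod_eq_of_lt h6] at h4
        exact ⟨h4, h6⟩
      · right
        rw [Nat.mod_eq_sub_mod h6, Nat.mod_eq_of_lt (by omega)] at h4
        omega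
    have hX := ZMod.val_lt (X i)
    have hY := ZMod.val_lt (Y i)
    rcases hd i with h | h
    · have := key _ _ h
      omega
    · have := key _ _ h
      omega

lemma card_filter_map {n : ℕ} (e : Fin n → ℕ) (d : ℕ) :
    Multiset.card (Multiset.filter (fun x => d ∣ x)
      (Multiset.map e (Finset.univ : Finset (Fin n)).val))
      = (Finset.univ.filter fun i : Fin n => d ∣ e i).card := by
  rw [Multiset.filter_map, Multiset.card_map]
  rfl

/-- existence. -/
theorem sufficient (p : ℕ) (hp : p.Prime) (hp5 : 5 ≤ p) (n : ℕ) (hn : 2 * n + 1 = 3 * p)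
    (e : Fin n → ℕ) (he : ∀ i, 1 ≤ e i ∧ e i ≤ n)
    (h3 : (Finset.univ.filter fun i : Fin n => 3 ∣ e i).card ≤ (2 * n + 1 - 3) / 2)
    (hpp : (Finset.univ.filter fun i : Fin n => p ∣ e i).card ≤ (2 * n + 1 - p) / 2) :
    ∃ g : Fin n ⊕ Fin n → Fin (2 * n + 1), Function.Injective g ∧
      Multiset.map
        (fun i : Fin n =>
          min (Int.natAbs (((g (Sum.inl i) : ℕ) : ℤ) - ((g (Sum.inr i) : ℕ) : ℤ)))
            (2 * n + 1 - Int.natAbs (((g (Sum.inl i) : ℕ) : ℤ) - ((g (Sum.inr i) : ℕ) : ℤ))))
        (Finset.univ : Finset (Fin n)).val = Multiset.map e (Finset.univ : Finset (Fin n)).val := by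
  have : Fact p.Prime := ⟨hp⟩
  obtain ⟨s, hps⟩ : ∃ s, p = 2 * s + 1 := by
    rcases hp.eq_two_or_odd with h | h
    · omega
    · exact ⟨p / 2, by omega⟩
  have hcop : Nat.Coprime 3 p := by
    rw [Nat.coprime_primes Nat.prime_three hp]
    omega
  -- class differences and shifts
  set res : Fin n → Fin 3 := fun i => if e i % 3 = 0 then 0 else 1 with hres
  set d : Fin n → ZMod p := fun i => if e i % 3 = 2 then -((e i : ℕ) : ZMod p) else (e i : ZMod p)
    with hd
  have hd0 : ∀ i, d i = 0 ↔ p ∣ e i := by
    intro i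
    rw [← ZMod.natCast_eq_zero_iff]
    simp only [hd]
    split_ifs
    · rw [neg_eq_zero]
    · rfl
  have hr1 : ∀ i, res i = 1 ↔ ¬ 3 ∣ e i := by
    intro i
    simp only [hres]
    split_ifs with h
    · constructor
      · intro h'; exact absurd h' (by decide)
      · intro h'; exact absurd (Nat.dvd_of_mod_eq_zero h) h'
    · constructor
      · intro _ h'; exact h (Nat.mod_eq_zero_of_dvd h')
      · intro _; rfl
  have hpl : Placed res d := by
    classical
    apply Placed.congr (Equiv.sumCompl (fun i => res i = 1))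
    have h1 : (fun i => res (Equiv.sumCompl (fun i => res i = 1) i))
        = Sum.elim (fun _ => (1 : Fin 3)) (fun _ => 0) := by
      funext i
      rcases i with i | i
      · simp only [Equiv.sumCompl_apply_inl, Sum.elim_inl]
        exact i.2
      · simp only [Equiv.sumCompl_apply_inr, Sum.elim_inr]
        have h2 := i.2
        rw [hr1] at h2
        push Not at h2
        simp only [hres]
        rw [if_pos (Nat.mod_eq_zero_of_dvd h2)]
    have h2 : (fun i => d (Equiv.sumCompl (fun i => res i = 1) i))
        = Sum.elim (fun i : {i // res i = 1} => d i) (fun i : {i // ¬ res i = 1} => d i) := by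
      funext i
      rcases i with i | i
      · rfl
      · rfl
    rw [h1, h2]
    have hc2 : Fintype.card {i // ¬ res i = 1} ≤ 3 * s := by
      rw [Fintype.card_subtype]
      have h4 : (univ.filter fun i => ¬ res i = 1) = univ.filter fun i : Fin n => 3 ∣ e i := by
        apply Finset.filter_congr
        intro i _
        rw [hr1, not_not]
      rw [h4]
      omega
    apply placed_sum hps hp5
    · have h4 := Fintype.card_subtype_compl (fun i => res i = 1)
      have h5 := Fintype.card_subtype_le (fun i => res i = 1)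
      rw [Fintype.card_fin] at h4 h5
      omega
    · exact hc2
    · intro l h
      rw [hd0] at h
      have h4 := l.2
      rw [hr1] at h4
      push Not at h4
      have h5 := hcop.mul_dvd_of_dvd_of_dvd h4 h
      have h6 := Nat.le_of_dvd (by have := (he l).1; omega) h5
      have := (he l).2
      omega
    · have h4 : (univ.filter fun i : {i // res i = 1} => d i = 0).card
          ≤ (univ.filter fun i : Fin n => p ∣ e i).card := by
        apply Finset.card_le_card_of_injOn (fun i : {i // res i = 1} => (i : Fin n))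
        · intro i hi
          rw [Finset.mem_coe, Finset.mem_filter] at hi ⊢
          exact ⟨Finset.mem_univ _, (hd0 _).mp hi.2⟩
        · intro i _ i' _ h
          exact Subtype.ext h
      omega
  obtain ⟨c, x, hinj⟩ := hpl
  let φ := ZMod.chineseRemainder hcop
  set κ : Fin 3 → ZMod 3 := fun a => ((a : ℕ) : ZMod 3) with hκ
  have hκi : Function.Injective κ := by decide
  have hκa : ∀ a b, κ (a + b) = κ a + κ b := by decide
  apply finish n (3 * p) hn.symm e he (fun i => φ.symm (κ (c i), x i))
    (fun i => φ.symm (κ (c i + res i), x i + d i))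
  · intro r r' hrr
    apply hinj
    rcases r with ⟨i, b⟩
    rcases r' with ⟨i', b'⟩
    have h1 : ∀ (i : Fin n) (b : Bool), (if (i, b).2 = true then
        φ.symm (κ (c (i, b).1 + res (i, b).1), x (i, b).1 + d (i, b).1)
        else φ.symm (κ (c (i, b).1), x (i, b).1))
        = φ.symm (κ (slot res d c x (i, b)).1, (slot res d c x (i, b)).2) := by
      intro i b
      cases b
      · rfl
      · rfl
    have h2 := φ.symm.injective ((h1 i b).symm.trans (hrr.trans (h1 i' b')))
    simp only [Prod.mk.injEq] at h2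
    exact Prod.ext (hκi h2.1) h2.2
  · intro i
    have hcast : ∀ m : ℕ, φ.symm ((m : ZMod 3), (m : ZMod p)) = (m : ZMod (3 * p)) := by
      intro m
      rw [RingEquiv.symm_apply_eq, map_natCast]
      rfl
    by_cases h2 : e i % 3 = 2
    · right
      have h4 : κ (res i) = -((e i : ℕ) : ZMod 3) := by
        simp only [hres]
        rw [if_neg (by omega)]
        have h5 : ((e i : ℕ) : ZMod 3) = ((2 : ℕ) : ZMod 3) := by
          rw [ZMod.natCast_eq_natCast_iff']
          omega
        rw [h5]
        decide
      have h5 : d i = -((e i : ℕ) : ZMod p) := by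
        simp only [hd]
        rw [if_pos h2]
      rw [← hcast (e i), ← map_add]
      congr 1
      refine Prod.ext ?_ ?_
      · simp only [Prod.mk_add_mk]
        rw [hκa, h4]
        ring
      · simp only [Prod.mk_add_mk]
        rw [h5]
        ring
    · left
      have h4 : κ (res i) = ((e i : ℕ) : ZMod 3) := by
        simp only [hres]
        split_ifs with h5
        · have h6 : ((e i : ℕ) : ZMod 3) = ((0 : ℕ) : ZMod 3) := by
            rw [ZMod.natCast_eq_natCast_iff']
            omega
          rw [h6]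
          decide
        · have h6 : ((e i : ℕ) : ZMod 3) = ((1 : ℕ) : ZMod 3) := by
            rw [ZMod.natCast_eq_natCast_iff']
            omega
          rw [h6]
          decide
      have h5 : d i = ((e i : ℕ) : ZMod p) := by
        simp only [hd]
        rw [if_neg h2]
      rw [← hcast (e i), ← map_add]
      congr 1
      refine Prod.ext ?_ ?_
      · simp only [Prod.mk_add_mk]
        rw [hκa, h4]
      · simp only [Prod.mk_add_mk]
        rw [h5]

/-- necessity of the divisor condition. -/
theorem necessary (n : ℕ) (d : ℕ) (hd : d ∣ 2 * n + 1) (g : Fin n ⊕ Fin n → Fin (2 * n + 1))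
    (hg : Function.Injective g) :
    (Finset.univ.filter fun i : Fin n => d ∣
      min (Int.natAbs (((g (Sum.inl i) : ℕ) : ℤ) - ((g (Sum.inr i) : ℕ) : ℤ)))
        (2 * n + 1 - Int.natAbs (((g (Sum.inl i) : ℕ) : ℤ) - ((g (Sum.inr i) : ℕ) : ℤ)))).card
      ≤ (2 * n + 1 - d) / 2 := by
  obtain ⟨m, hm⟩ := hd
  have hd0 : 0 < d := by
    rcases Nat.eq_zero_or_pos d with h | h
    · rw [h] at hm; omega
    · exact h
  have hm1 : m % 2 = 1 := by
    rcases Nat.mod_two_eq_zero_or_one m with h | h
    · exfalso
      obtain ⟨k, rfl⟩ := Nat.dvd_of_mod_eq_zero h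
      have : d * (2 * k) = 2 * (d * k) := by ring
      omega
    · exact h
  set S := Finset.univ.filter fun i : Fin n => d ∣
      min (Int.natAbs (((g (Sum.inl i) : ℕ) : ℤ) - ((g (Sum.inr i) : ℕ) : ℤ)))
        (2 * n + 1 - Int.natAbs (((g (Sum.inl i) : ℕ) : ℤ) - ((g (Sum.inr i) : ℕ) : ℤ))) with hS
  have hmod : ∀ i ∈ S, (g (Sum.inl i) : ℕ) % d = (g (Sum.inr i) : ℕ) % d := by
    intro i hi
    rw [hS, Finset.mem_filter] at hi
    have h1 := hi.2
    have ha := (g (Sum.inl i)).isLt
    have hb := (g (Sum.inr i)).isLt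
    set a := (g (Sum.inl i) : ℕ)
    set b := (g (Sum.inr i) : ℕ)
    have h2 : (d : ℤ) ∣ (a : ℤ) - b := by
      rcases min_choice (Int.natAbs ((a : ℤ) - b)) (2 * n + 1 - Int.natAbs ((a : ℤ) - b)) with h | h
      · rw [h] at h1
        exact Int.natCast_dvd.mpr h1
      · rw [h] at h1
        have h3 : d ∣ 2 * n + 1 := ⟨m, hm⟩
        have h4 : Int.natAbs ((a : ℤ) - b) ≤ 2 * n + 1 := by omega
        have h5 : d ∣ Int.natAbs ((a : ℤ) - b) := by
          have h6 := (Nat.dvd_sub h3 h1)
          rwa [Nat.sub_sub_self h4] at h6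
        exact Int.natCast_dvd.mpr h5
    exact (Nat.modEq_iff_dvd.mpr (by
      have := (dvd_neg.mpr h2)
      rwa [neg_sub] at this))
  have hfib := Finset.card_eq_sum_card_fiberwise (s := S) (t := range d)
    (f := fun i => (g (Sum.inl i) : ℕ) % d) (fun i _ => by
      rw [Finset.mem_coe, Finset.mem_range]
      exact Nat.mod_lt _ hd0)
  have hle : ∀ ρ ∈ range d, (S.filter fun i => (g (Sum.inl i) : ℕ) % d = ρ).card ≤ (m - 1) / 2 := by
    intro ρ _
    set T := S.filter fun i => (g (Sum.inl i) : ℕ) % d = ρ with hT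
    have h1 : (T ×ˢ (univ : Finset Bool)).card ≤ (range m).card := by
      apply Finset.card_le_card_of_injOn
        (fun r => (if r.2 then (g (Sum.inr r.1) : ℕ) else (g (Sum.inl r.1) : ℕ)) / d)
      · rintro ⟨i, b⟩ _
        rw [Finset.mem_coe, Finset.mem_range]
        apply Nat.div_lt_of_lt_mul
        rw [← hm]
        split_ifs
        · exact (g (Sum.inr i)).isLt
        · exact (g (Sum.inl i)).isLt
      · rintro ⟨i, b⟩ hi ⟨i', b'⟩ hi' hii
        rw [Finset.mem_coe, Finset.mem_product, hT, Finset.mem_filter] at hi hi'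
        have h2 := hi.1.2
        have h3 := hi'.1.2
        have h4 := hmod i hi.1.1
        have h5 := hmod i' hi'.1.1
        simp only at h2 h3 hii
        have h6 : ∀ a b : ℕ, a / d = b / d → a % d = b % d → a = b := by
          intro a b hab hab'
          rw [← Nat.div_add_mod a d, ← Nat.div_add_mod b d, hab, hab']
        cases b <;> cases b' <;> simp only [if_true, Bool.false_eq_true, if_false] at hii
        · have h7 := h6 _ _ hii (by rw [h2, h3])
          have h8 := hg (Fin.ext h7)
          simp only [Sum.inl.injEq] at h8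
          rw [h8]
        · have h7 := h6 _ _ hii (by rw [← h5, h2, h3])
          have h8 := hg (Fin.ext h7)
          simp at h8
        · have h7 := h6 _ _ hii (by rw [← h4, h2, h3])
          have h8 := hg (Fin.ext h7)
          simp at h8
        · have h7 := h6 _ _ hii (by rw [← h4, ← h5, h2, h3])
          have h8 := hg (Fin.ext h7)
          simp only [Sum.inr.injEq] at h8
          rw [h8]
    rw [Finset.card_product, Finset.card_univ, Fintype.card_bool, Finset.card_range] at h1
    omega
  have h1 := Finset.sum_le_sum hle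
  rw [← hfib, Finset.sum_const, Finset.card_range, smul_eq_mul] at h1
  obtain ⟨k, hk⟩ : ∃ k, m = 2 * k + 1 := ⟨m / 2, by omega⟩
  have h2 : (m - 1) / 2 = k := by omega
  rw [h2] at h1
  have h3 : 2 * n + 1 - d = 2 * (d * k) := by
    rw [hm, hk]
    have : d * (2 * k + 1) = 2 * (d * k) + d := by ring
    omega
  rw [h3]
  omega

/-- The conjecture of Meszka, Pasotti and Pellegrini holds for `v = 2n+1 = 3p`, for every prime
`p ≥ 5` and every list. -/
theorem result (p : ℕ) (hp : p.Prime) (hp5 : 5 ≤ p) (n : ℕ) (hn : 2 * n + 1 = 3 * p)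
    (L : Multiset ℕ) (hcard : Multiset.card L = n) (hL : ∀ x ∈ L, 1 ≤ x ∧ x ≤ n) :
    (∃ g : Fin n ⊕ Fin n → Fin (2 * n + 1), Function.Injective g ∧
      Multiset.map
        (fun i : Fin n =>
          min (Int.natAbs (((g (Sum.inl i) : ℕ) : ℤ) - ((g (Sum.inr i) : ℕ) : ℤ)))
            (2 * n + 1 - Int.natAbs (((g (Sum.inl i) : ℕ) : ℤ) - ((g (Sum.inr i) : ℕ) : ℤ))))
        (Finset.univ : Finset (Fin n)).val = L) ↔
    ∀ d ∈ Nat.divisors (2 * n + 1),
      Multiset.card (Multiset.filter (fun x => d ∣ x) L) ≤ (2 * n + 1 - d) / 2 := by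
  constructor
  · rintro ⟨g, hg, hgL⟩ d hd
    rw [← hgL, card_filter_map]
    exact necessary n d (Nat.dvd_of_mem_divisors hd) g hg
  · intro h
    obtain ⟨e, hl⟩ : ∃ e : Fin n → ℕ,
        Multiset.map e (Finset.univ : Finset (Fin n)).val = L := by
      induction L using Quotient.inductionOn with
      | _ l =>
        have hlen : l.length = n := hcard
        subst hlen
        refine ⟨l.get, ?_⟩
        rw [Fin.univ_val_map, List.ofFn_get]
        rfl
    have he : ∀ i, 1 ≤ e i ∧ e i ≤ n := by
      intro i
      apply hL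
      rw [← hl]
      exact Multiset.mem_map_of_mem e (Finset.mem_univ i)
    have h3 := h 3 (by rw [Nat.mem_divisors, hn]; exact ⟨dvd_mul_right 3 p, by omega⟩)
    have hpp := h p (by rw [Nat.mem_divisors, hn]; exact ⟨dvd_mul_left p 3, by omega⟩)
    rw [← hl, card_filter_map] at h3 hpp
    rw [← hl]
    exact sufficient p hp hp5 n hn e he h3 hpp

end Pool.Agent.Results.MP_6cccb1_co.ThreeTimesPrime
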