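import Mathlib

/-!
Near 1-factors of `K_v`, `v = 2n+1` odd, for lists that split into two good blocks.
-/

set_option autoImplicit false

open Finset Equiv

namespace Pool.Agent.Results.MP_6cccb1_co.TwoBlocks

section PhiSec

variable {ι : Type*} [Fintype ι] [DecidableEq ι]

/-- flips of the second coordinate. -/
def flipPerm (b : Bool) : Perm Bool := if b then Equiv.boolNot else 1

lemma sign_flipPerm (b : Bool) : Perm.sign (flipPerm b) = if b then -1 else 1 := by
  cases b
  · simp [flipPerm]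
  · simp only [flipPerm, if_true]; decide

lemma flipPerm_apply (b c : Bool) : flipPerm b c = xor c b := by
  cases b <;> cases c <;> rfl

/-- the permutations of `ι × Bool` that commute with flipping. -/
def Phi (q : Perm ι × (ι → Bool)) : Perm (ι × Bool) :=
  (Equiv.prodCongrLeft fun _ : Bool => q.1) * (Equiv.prodCongrRight fun i => flipPerm (q.2 i))

omit [Fintype ι] [DecidableEq ι] in
lemma Phi_apply (q : Perm ι × (ι → Bool)) (i : ι) (b : Bool) :
    Phi q (i, b) = (q.1 i, xor b (q.2 i)) := by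
  simp [Phi, flipPerm_apply]

lemma sign_Phi (q : Perm ι × (ι → Bool)) :
    Perm.sign (Phi q) = ∏ i, (if q.2 i then (-1 : ℤˣ) else 1) := by
  unfold Phi
  rw [Equiv.Perm.sign_mul, Equiv.Perm.sign_prodCongrLeft, Equiv.Perm.sign_prodCongrRight]
  simp only [sign_flipPerm, Fintype.prod_bool, Int.units_mul_self, one_mul]

omit [Fintype ι] [DecidableEq ι] in
lemma Phi_inj : Function.Injective (Phi (ι := ι)) := by
  intro q q' h
  have h1 : ∀ i, (q.1 i, q.2 i) = (q'.1 i, q'.2 i) := by
    intro i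
    have := congrArg (fun τ => τ (i, false)) h
    simpa [Phi_apply] using this
  refine Prod.ext (Equiv.ext fun i => (Prod.ext_iff.mp (h1 i)).1)
    (funext fun i => (Prod.ext_iff.mp (h1 i)).2)

omit [DecidableEq ι] in
lemma mem_range_Phi (τ : Perm (ι × Bool))
    (h : ∀ i, τ (i, true) = ((τ (i, false)).1, !(τ (i, false)).2)) : ∃ q, Phi q = τ := by
  have hinj : Function.Injective fun i => (τ (i, false)).1 := by
    intro i j hij
    simp only at hij
    by_cases h2 : (τ (i, false)).2 = (τ (j, false)).2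
    · have : τ (i, false) = τ (j, false) := Prod.ext hij h2
      have := τ.injective this
      exact (Prod.ext_iff.mp this).1
    · have h3 : (!(τ (i, false)).2) = (τ (j, false)).2 := by
        cases h4 : (τ (i, false)).2 <;> cases h5 : (τ (j, false)).2 <;> simp_all
      have : τ (i, true) = τ (j, false) := by
        rw [h i]; exact Prod.ext hij h3
      have := τ.injective this
      exact absurd (Prod.ext_iff.mp this).2 (by simp)
  refine ⟨(Equiv.ofBijective _ (Finite.injective_iff_bijective.mp hinj),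
    fun i => (τ (i, false)).2), ?_⟩
  apply Equiv.ext
  rintro ⟨i, b⟩
  rw [Phi_apply]
  cases b
  · simp
  · rw [h i]; simp

end PhiSec

section Sum

variable {ι : Type*} [Fintype ι] [DecidableEq ι] {N : ℕ} [NeZero N] {K : Type*} [Field K]

/-- endpoints. -/
def pt (x d : ι → ZMod N) (r : ι × Bool) : ZMod N :=
  if r.2 then x r.1 + d r.1 else x r.1

/-- the square matrix attached to a choice of starting points. -/
def W (ψ : AddChar (ZMod N) K) (e : ι × Bool → ZMod N) (x d : ι → ZMod N) :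
    Matrix (ι × Bool) (ι × Bool) K := fun r c => ψ (e c * pt x d r)

lemma sum_det (ψ : AddChar (ZMod N) K) (hψ : ψ.IsPrimitive) (e : ι × Bool → ZMod N)
    (S d : ι → ZMod N) :
    ∑ x : ι → ZMod N, (∏ i, ψ (-(S i * x i))) * (W ψ e x d).det
      = ∑ τ : Perm (ι × Bool), ((Perm.sign τ : ℤ) : K) *
        ∏ i, (ψ (e (τ (i, true)) * d i) *
          (if e (τ (i, true)) + e (τ (i, false)) = S i then (N : K) else 0)) := by
  have h1 : ∀ x : ι → ZMod N, (∏ i, ψ (-(S i * x i))) * (W ψ e x d).det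
      = ∑ τ : Perm (ι × Bool), ((Perm.sign τ : ℤ) : K) *
        ∏ i, (ψ (-(S i * x i)) *
          (ψ (e (τ (i, true)) * (x i + d i)) * ψ (e (τ (i, false)) * x i))) := by
    intro x
    rw [← Matrix.det_transpose, Matrix.det_apply', Finset.mul_sum]
    refine Finset.sum_congr rfl ?_
    intro τ _
    rw [Finset.prod_mul_distrib (f := fun i => ψ (-(S i * x i)))]
    rw [Fintype.prod_prod_type]
    have : ∀ i, ∏ y : Bool, (W ψ e x d).transpose (τ (i, y)) (i, y)
        = ψ (e (τ (i, true)) * (x i + d i)) * ψ (e (τ (i, false)) * x i) := by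
      intro i
      rw [Fintype.prod_bool]
      simp [W, pt, Matrix.transpose_apply]
    simp_rw [this]
    ring
  simp_rw [h1]
  rw [Finset.sum_comm]
  refine Finset.sum_congr rfl ?_
  intro τ _
  rw [← Finset.mul_sum]
  congr 1
  have := Finset.prod_univ_sum (fun _ : ι => (univ : Finset (ZMod N)))
    (fun i y => ψ (-(S i * y)) *
      (ψ (e (τ (i, true)) * (y + d i)) * ψ (e (τ (i, false)) * y)))
  rw [Fintype.piFinset_univ] at this
  rw [← this]
  refine Finset.prod_congr rfl ?_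
  intro i _
  have h3 : ∀ y : ZMod N,
      ψ (-(S i * y)) * (ψ (e (τ (i, true)) * (y + d i)) * ψ (e (τ (i, false)) * y))
      = ψ (e (τ (i, true)) * d i) *
        ψ (y * (e (τ (i, true)) + e (τ (i, false)) - S i)) := by
    intro y
    rw [← AddChar.map_add_eq_mul, ← AddChar.map_add_eq_mul, ← AddChar.map_add_eq_mul]
    congr 1
    ring
  simp_rw [h3]
  rw [← Finset.mul_sum, AddChar.sum_mulShift _ hψ, ZMod.card]
  congr 1
  by_cases h : e (τ (i, true)) + e (τ (i, false)) = S i
  · rw [if_pos h, if_pos (sub_eq_zero.mpr h)]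
  · rw [if_neg h, if_neg (fun h' => h (sub_eq_zero.mp h'))]
    simp

end Sum

section Cols

variable {r s : ℕ}

/-- the columns: all numbers `0, …, 2(r+s)` except `2r`, in pairs. -/
def E (r s : ℕ) : (Fin r ⊕ Fin s) × Bool → ℕ
  | (Sum.inl k, false) => r - 1 - k
  | (Sum.inl k, true) => r + k
  | (Sum.inr k, false) => 2 * r + s - k
  | (Sum.inr k, true) => 2 * r + s + 1 + k

/-- the prescribed pair sums. -/
def Sm (r s : ℕ) : Fin r ⊕ Fin s → ℕ
  | Sum.inl _ => 2 * r - 1
  | Sum.inr _ => 2 * r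

lemma E_lt (c : (Fin r ⊕ Fin s) × Bool) : E r s c < 2 * (r + s) + 1 := by
  rcases c with ⟨k | k, b⟩ <;> cases b <;> simp only [E] <;> omega

lemma E_ne (c : (Fin r ⊕ Fin s) × Bool) : E r s c ≠ 2 * r := by
  rcases c with ⟨k | k, b⟩ <;> cases b <;> simp only [E] <;> omega

lemma E_inl (k : Fin r) (b : Bool) : E r s (Sum.inl k, b) < 2 * r := by
  cases b <;> simp only [E] <;> omega

lemma E_inr (k : Fin s) (b : Bool) : 2 * r < E r s (Sum.inr k, b) := by
  cases b <;> simp only [E] <;> omega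

lemma E_inj : Function.Injective (E r s) := by
  rintro ⟨k | k, b⟩ ⟨k' | k', b'⟩ h
  · cases b <;> cases b' <;> simp only [E] at h
    · have : k = k' := Fin.ext (by omega)
      rw [this]
    · omega
    · omega
    · have : k = k' := Fin.ext (by omega)
      rw [this]
  · have h1 := E_inl (s := s) k b
    have h2 := E_inr (r := r) k' b'
    omega
  · have h1 := E_inl (s := s) k' b'
    have h2 := E_inr (r := r) k b
    omega
  · cases b <;> cases b' <;> simp only [E] at h
    · have : k = k' := Fin.ext (by omega)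
      rw [this]
    · omega
    · omega
    · have : k = k' := Fin.ext (by omega)
      rw [this]

lemma E_surj_low {m : ℕ} (hm : m < 2 * r) : ∃ c, E r s c = m := by
  rcases Nat.lt_or_ge m r with h | h
  · exact ⟨(Sum.inl ⟨r - 1 - m, by omega⟩, false), by simp only [E]; omega⟩
  · exact ⟨(Sum.inl ⟨m - r, by omega⟩, true), by simp only [E]; omega⟩

lemma E_surj_high {m : ℕ} (hm : 2 * r < m) (hm' : m < 2 * (r + s) + 1) : ∃ c, E r s c = m := by
  rcases Nat.lt_or_ge (2 * r + s) m with h | h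
  · exact ⟨(Sum.inr ⟨m - (2 * r + s + 1), by omega⟩, true), by simp only [E]; omega⟩
  · exact ⟨(Sum.inr ⟨2 * r + s - m, by omega⟩, false), by simp only [E]; omega⟩

lemma sum_mod {a b t v : ℕ} (ha : a < v) (hb : b < v) (ht : t < v)
    (h : ((a : ZMod v) + b) = t) : a + b = t ∨ a + b = t + v := by
  have h1 : (((a + b : ℕ)) : ZMod v) = ((t : ℕ) : ZMod v) := by push_cast; exact h
  rw [ZMod.natCast_eq_natCast_iff'] at h1
  rw [Nat.mod_eq_of_lt ht] at h1
  rcases Nat.lt_or_ge (a + b) v with h2 | h2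
  · rw [Nat.mod_eq_of_lt h2] at h1
    exact Or.inl h1
  · rw [Nat.mod_eq_sub_mod h2, Nat.mod_eq_of_lt (by omega)] at h1
    right; omega

variable (τ : Perm ((Fin r ⊕ Fin s) × Bool))
  (hτ : ∀ i, ((E r s (τ (i, true)) : ℕ) : ZMod (2 * (r + s) + 1))
    + ((E r s (τ (i, false)) : ℕ) : ZMod (2 * (r + s) + 1))
    = ((Sm r s i : ℕ) : ZMod (2 * (r + s) + 1)))

include hτ

lemma pair_sum (i : Fin r ⊕ Fin s) (b : Bool) :
    E r s (τ (i, b)) + E r s (τ (i, !b)) = Sm r s i ∨
    E r s (τ (i, b)) + E r s (τ (i, !b)) = Sm r s i + (2 * (r + s) + 1) := by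
  have hS : Sm r s i < 2 * (r + s) + 1 := by
    rcases i with k | k <;> simp only [Sm] <;> omega
  have h := sum_mod (E_lt _) (E_lt _) hS (hτ i)
  cases b
  · simp only [Bool.not_false]
    rw [Nat.add_comm]
    exact h
  · simp only [Bool.not_true]
    exact h

lemma low (m : ℕ) : m < 2 * r → ∀ (i : Fin r ⊕ Fin s) (b : Bool), E r s (τ (i, b)) = m →
    (∃ a, i = Sum.inl a) ∧ E r s (τ (i, !b)) = 2 * r - 1 - m := by
  induction m with
  | zero =>
    intro hm i b hE
    have h := pair_sum τ hτ i b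
    have h1 := E_lt (τ (i, !b))
    have h2 := E_ne (τ (i, !b))
    rcases i with a | a
    · refine ⟨⟨a, rfl⟩, ?_⟩
      simp only [Sm] at h
      omega
    · exfalso
      simp only [Sm] at h
      omega
  | succ m ih =>
    intro hm i b hE
    have h := pair_sum τ hτ i b
    have h1 := E_lt (τ (i, !b))
    have h2 := E_ne (τ (i, !b))
    rcases i with a | a
    · refine ⟨⟨a, rfl⟩, ?_⟩
      simp only [Sm] at h
      omega
    · exfalso
      simp only [Sm] at h
      obtain ⟨c, hc⟩ := E_surj_low (r := r) (s := s) (m := m) (by omega)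
      obtain ⟨⟨i', b'⟩, hi'⟩ := τ.surjective c
      have h3 := ih (by omega) i' b' (by rw [hi', hc])
      obtain ⟨⟨a', ha'⟩, h4⟩ := h3
      have h5 : E r s (τ (i', !b')) = E r s (τ (Sum.inr a, !b)) := by
        rw [h4]; omega
      have h6 := τ.injective (E_inj h5)
      have h7 := (Prod.ext_iff.mp h6).1
      simp only at h7
      rw [ha'] at h7
      simp at h7

lemma high (l : ℕ) : 1 ≤ l → l ≤ 2 * s → ∀ (i : Fin r ⊕ Fin s) (b : Bool),
    E r s (τ (i, b)) = 2 * (r + s) + 1 - l →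
    (∃ a, i = Sum.inr a) ∧ E r s (τ (i, !b)) = 2 * r + l := by
  induction l with
  | zero => intro h; omega
  | succ l ih =>
    intro _ hl i b hE
    have h := pair_sum τ hτ i b
    have h1 := E_lt (τ (i, !b))
    have h2 := E_ne (τ (i, !b))
    rcases i with a | a
    · exfalso
      have ha := a.isLt
      simp only [Sm] at h
      rcases Nat.eq_zero_or_pos l with h0 | h0
      · omega
      obtain ⟨c, hc⟩ := E_surj_high (r := r) (s := s) (m := 2 * (r + s) + 1 - l) (by omega)
        (by omega)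
      obtain ⟨⟨i', b'⟩, hi'⟩ := τ.surjective c
      have h3 := ih h0 (by omega) i' b' (by rw [hi', hc])
      obtain ⟨⟨a', ha'⟩, h4⟩ := h3
      have h5 : E r s (τ (i', !b')) = E r s (τ (Sum.inl a, !b)) := by
        rw [h4]; omega
      have h6 := τ.injective (E_inj h5)
      have h7 := (Prod.ext_iff.mp h6).1
      simp only at h7
      rw [ha'] at h7
      simp at h7
    · refine ⟨⟨a, rfl⟩, ?_⟩
      simp only [Sm] at h
      omega

lemma flip_of (i : Fin r ⊕ Fin s) :
    τ (i, true) = ((τ (i, false)).1, !(τ (i, false)).2) ∧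
    ((∃ a, i = Sum.inl a) ↔ ∃ a, (τ (i, false)).1 = Sum.inl a) := by
  obtain ⟨⟨c, b⟩, hc⟩ : ∃ c, τ (i, false) = c := ⟨_, rfl⟩
  rcases c with k | k
  · have h1 := E_inl (s := s) k b
    obtain ⟨⟨a, ha⟩, h2⟩ := low τ hτ _ h1 i false (by rw [hc])
    rw [hc]
    refine ⟨?_, ?_⟩
    · apply E_inj
      simp only [Bool.not_false] at h2
      rw [h2]
      cases b <;> simp only [E, Bool.not_false, Bool.not_true] <;> omega
    · simp [ha]
  · have h1 := E_inr (r := r) k b
    have h1' := E_lt (r := r) (Sum.inr k, b)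
    obtain ⟨⟨a, ha⟩, h2⟩ := high τ hτ (2 * (r + s) + 1 - E r s (Sum.inr k, b)) (by omega)
      (by omega) i false (by rw [hc]; omega)
    rw [hc]
    refine ⟨?_, ?_⟩
    · apply E_inj
      simp only [Bool.not_false] at h2
      rw [h2]
      cases b <;> simp only [E, Bool.not_false, Bool.not_true] <;> omega
    · simp [ha]

end Cols

section Block

variable {r s : ℕ} {K : Type*} [Field K]

/-- the permanent of the matrix `t_i ^ (s + k) - t_i ^ (s - 1 - k)`. -/
def PN {R : Type*} [CommRing R] {s : ℕ} (t : Fin s → R) : R :=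
  ∑ σ : Perm (Fin s), ∏ i, (t i ^ (s + (σ i : ℕ)) - t i ^ (s - 1 - (σ i : ℕ)))

/-- the permutations that occur. -/
def Psi (q : (Perm (Fin r) × Perm (Fin s)) × (Fin r ⊕ Fin s → Bool)) :
    Perm ((Fin r ⊕ Fin s) × Bool) :=
  Phi (Equiv.Perm.sumCongr q.1.1 q.1.2, q.2)

lemma Psi_inj : Function.Injective (Psi (r := r) (s := s)) := by
  rintro ⟨⟨a, b⟩, c⟩ ⟨⟨a', b'⟩, c'⟩ h
  have h1 := Phi_inj h
  have h2 := (Prod.ext_iff.mp h1).1
  have h3 := (Prod.ext_iff.mp h1).2
  simp only at h2 h3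
  have h4 : (a, b) = (a', b') := Equiv.Perm.sumCongrHom_injective h2
  rw [h4, h3]

lemma mem_range_Psi (τ : Perm ((Fin r ⊕ Fin s) × Bool))
    (hτ : ∀ i, ((E r s (τ (i, true)) : ℕ) : ZMod (2 * (r + s) + 1))
      + ((E r s (τ (i, false)) : ℕ) : ZMod (2 * (r + s) + 1))
      = ((Sm r s i : ℕ) : ZMod (2 * (r + s) + 1))) : ∃ q, Psi q = τ := by
  obtain ⟨q, hq⟩ := mem_range_Phi τ (fun i => (flip_of τ hτ i).1)
  have h1 : Set.MapsTo q.1 (Set.range Sum.inl) (Set.range Sum.inl) := by
    rintro _ ⟨a, rfl⟩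
    obtain ⟨a', ha'⟩ := (flip_of τ hτ (Sum.inl a)).2.mp ⟨a, rfl⟩
    rw [← hq, Phi_apply] at ha'
    exact ⟨a', ha'.symm⟩
  obtain ⟨p, hp⟩ := Equiv.Perm.mem_sumCongrHom_range_of_perm_mapsTo_inl h1
  refine ⟨(p, q.2), ?_⟩
  rw [← hq]
  unfold Psi
  have : Equiv.Perm.sumCongr p.1 p.2 = q.1 := hp
  rw [this]

lemma psi_nat_mul {N : ℕ} [NeZero N] (ψ : AddChar (ZMod N) K) (a : ZMod N) (m : ℕ) :
    ψ ((m : ZMod N) * a) = ψ a ^ m := by
  rw [← AddChar.map_nsmul_eq_pow, nsmul_eq_mul]

theorem sum_block (ψ : AddChar (ZMod (2 * (r + s) + 1)) K) (hψ : ψ.IsPrimitive)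
    (d : Fin r ⊕ Fin s → ZMod (2 * (r + s) + 1)) :
    ∑ x : Fin r ⊕ Fin s → ZMod (2 * (r + s) + 1),
      (∏ i, ψ (-(((Sm r s i : ℕ) : ZMod (2 * (r + s) + 1)) * x i))) *
        (W ψ (fun c => ((E r s c : ℕ) : ZMod (2 * (r + s) + 1))) x d).det
      = ((2 * (r + s) + 1 : ℕ) : K) ^ (r + s) *
        (PN (fun i => ψ (d (Sum.inl i))) *
          ((∏ i, ψ (d (Sum.inr i)) ^ (2 * r + 1)) * PN (fun i => ψ (d (Sum.inr i))))) := by
  rw [sum_det ψ hψ]
  rw [← Finset.sum_of_injOn
    (s := (univ : Finset ((Perm (Fin r) × Perm (Fin s)) × (Fin r ⊕ Fin s → Bool))))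
    (f := fun q => ((2 * (r + s) + 1 : ℕ) : K) ^ (r + s) *
      ∏ i, ((if q.2 i then (-1 : K) else 1) *
        ψ (((E r s (Equiv.Perm.sumCongr q.1.1 q.1.2 i, !q.2 i) : ℕ) :
          ZMod (2 * (r + s) + 1)) * d i))) Psi
    (Psi_inj.injOn) (fun _ _ => by simp)]
  · rw [← Finset.mul_sum]
    congr 1
    rw [Fintype.sum_prod_type]
    have h1 : ∀ p : Perm (Fin r) × Perm (Fin s),
        ∑ ε : Fin r ⊕ Fin s → Bool, ∏ i, ((if ε i then (-1 : K) else 1) *
          ψ (((E r s (Equiv.Perm.sumCongr p.1 p.2 i, !ε i) : ℕ) :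
            ZMod (2 * (r + s) + 1)) * d i))
        = (∏ i, (ψ (d (Sum.inl i)) ^ (r + (p.1 i : ℕ)) - ψ (d (Sum.inl i)) ^ (r - 1 - (p.1 i : ℕ))))
          * ((∏ i, ψ (d (Sum.inr i)) ^ (2 * r + 1)) *
            (∏ i, (ψ (d (Sum.inr i)) ^ (s + (p.2 i : ℕ))
              - ψ (d (Sum.inr i)) ^ (s - 1 - (p.2 i : ℕ))))) := by
      intro p
      have := Finset.prod_univ_sum (fun _ : Fin r ⊕ Fin s => (univ : Finset Bool))
        (fun i b => ((if b then (-1 : K) else 1) *
          ψ (((E r s (Equiv.Perm.sumCongr p.1 p.2 i, !b) : ℕ) :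
            ZMod (2 * (r + s) + 1)) * d i)))
      rw [Fintype.piFinset_univ] at this
      rw [← this, Fintype.prod_sum_type]
      congr 1
      · refine Finset.prod_congr rfl ?_
        intro i _
        rw [Fintype.sum_bool]
        simp only [if_true, Bool.not_true, Bool.not_false, Bool.false_eq_true, if_false,
          Equiv.Perm.sumCongr_apply, Sum.map_inl, E, psi_nat_mul]
        ring
      · rw [← Finset.prod_mul_distrib]
        refine Finset.prod_congr rfl ?_
        intro i _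
        rw [Fintype.sum_bool]
        simp only [if_true, Bool.not_true, Bool.not_false, Bool.false_eq_true, if_false,
          Equiv.Perm.sumCongr_apply, Sum.map_inr, E, psi_nat_mul]
        rw [mul_sub, ← pow_add, ← pow_add]
        have e1 : 2 * r + 1 + (s + (p.2 i : ℕ)) = 2 * r + s + 1 + (p.2 i : ℕ) := by ring
        have e2 : 2 * r + 1 + (s - 1 - (p.2 i : ℕ)) = 2 * r + s - (p.2 i : ℕ) := by
          have := (p.2 i).isLt
          omega
        rw [e1, e2]
        ring
    simp_rw [h1]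
    rw [Fintype.sum_prod_type]
    simp only [PN]
    rw [Finset.sum_mul]
    refine Finset.sum_congr rfl ?_
    intro σ _
    simp only [Finset.mul_sum]
  · intro τ _ hτ
    by_cases hall : ∀ i, ((E r s (τ (i, true)) : ℕ) : ZMod (2 * (r + s) + 1))
      + ((E r s (τ (i, false)) : ℕ) : ZMod (2 * (r + s) + 1))
      = ((Sm r s i : ℕ) : ZMod (2 * (r + s) + 1))
    · exfalso
      apply hτ
      obtain ⟨q, hq⟩ := mem_range_Psi τ hall
      exact ⟨q, by simp, hq⟩
    · push Not at hall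
      obtain ⟨i, hi⟩ := hall
      rw [Finset.prod_eq_zero (Finset.mem_univ i), mul_zero]
      rw [if_neg hi, mul_zero]
  · intro q _
    unfold Psi
    rw [sign_Phi]
    have h4 : ∀ i, ((E r s (Phi (Equiv.Perm.sumCongr q.1.1 q.1.2, q.2) (i, true)) : ℕ) :
          ZMod (2 * (r + s) + 1))
        + ((E r s (Phi (Equiv.Perm.sumCongr q.1.1 q.1.2, q.2) (i, false)) : ℕ) :
          ZMod (2 * (r + s) + 1))
        = ((Sm r s i : ℕ) : ZMod (2 * (r + s) + 1)) := by
      intro i
      rw [Phi_apply, Phi_apply]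
      simp only [Bool.false_xor, Bool.true_xor]
      rw [← Nat.cast_add]
      rcases i with a | a
      · simp only [Equiv.Perm.sumCongr_apply, Sum.map_inl]
        have := (q.1.1 a).isLt
        congr 1
        cases q.2 (Sum.inl a) <;> simp only [E, Sm, Bool.not_true, Bool.not_false] <;> omega
      · simp only [Equiv.Perm.sumCongr_apply, Sum.map_inr]
        have h5 := (q.1.2 a).isLt
        have h6 : E r s (Sum.inr (q.1.2 a), !q.2 (Sum.inr a)) + E r s (Sum.inr (q.1.2 a),
            q.2 (Sum.inr a)) = Sm r s (Sum.inr a) + (2 * (r + s) + 1) := by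
          cases q.2 (Sum.inr a) <;> simp only [E, Sm, Bool.not_true, Bool.not_false] <;> omega
        rw [h6, Nat.cast_add, ZMod.natCast_self, add_zero]
    simp_rw [h4, if_true]
    simp_rw [Phi_apply, Bool.true_xor]
    rw [Finset.prod_mul_distrib (f := fun i => ψ (((E r s (Equiv.Perm.sumCongr q.1.1 q.1.2 i,
      !q.2 i) : ℕ) : ZMod (2 * (r + s) + 1)) * d i)),
      Finset.prod_const, Finset.card_univ, Fintype.card_sum, Fintype.card_fin, Fintype.card_fin,
      Finset.prod_mul_distrib]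
    have h5 : (((∏ i, (if q.2 i then (-1 : ℤˣ) else 1) : ℤˣ) : ℤ) : K)
        = ∏ i, (if q.2 i then (-1 : K) else 1) := by
      push_cast
      refine Finset.prod_congr rfl ?_
      intro i _
      split_ifs <;> simp
    rw [h5]
    ring

theorem criterion (ψ : AddChar (ZMod (2 * (r + s) + 1)) K) (hψ : ψ.IsPrimitive)
    (d : Fin r ⊕ Fin s → ZMod (2 * (r + s) + 1))
    (hA : PN (fun i => ψ (d (Sum.inl i))) ≠ 0) (hB : PN (fun i => ψ (d (Sum.inr i))) ≠ 0)
    (hv : ((2 * (r + s) + 1 : ℕ) : K) ≠ 0) :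
    ∃ x : Fin r ⊕ Fin s → ZMod (2 * (r + s) + 1), Function.Injective (pt x d) := by
  by_contra hno
  push Not at hno
  have h0 : ∑ x : Fin r ⊕ Fin s → ZMod (2 * (r + s) + 1),
      (∏ i, ψ (-(((Sm r s i : ℕ) : ZMod (2 * (r + s) + 1)) * x i))) *
        (W ψ (fun c => ((E r s c : ℕ) : ZMod (2 * (r + s) + 1))) x d).det = 0 := by
    apply Finset.sum_eq_zero
    intro x _
    have := hno x
    rw [Function.Injective] at this
    push Not at this
    obtain ⟨a, a', h1, h2⟩ := this
    rw [Matrix.det_zero_of_row_eq h2 (by ext c; simp [W, h1]), mul_zero]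
  rw [sum_block ψ hψ d] at h0
  have h1 : ∏ i, ψ (d (Sum.inr i)) ^ (2 * r + 1) ≠ 0 := by
    rw [Finset.prod_ne_zero_iff]
    intro i _
    exact pow_ne_zero _ (AddChar.val_isUnit ψ _).ne_zero
  exact (mul_ne_zero (pow_ne_zero _ hv) (mul_ne_zero hA (mul_ne_zero h1 hB))) h0

end Block

section Transfer

open Polynomial

variable {s : ℕ}

lemma PN_map {R T : Type*} [CommRing R] [CommRing T] (f : R →+* T) (t : Fin s → R) :
    PN (fun i => f (t i)) = f (PN t) := by
  simp only [PN, map_sum, map_prod, map_sub, map_pow]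

/-- a block value that is non-zero for one primitive root of unity in one field is non-zero for
every primitive root of unity in every field of characteristic zero. -/
lemma transfer {F : Type*} [Field F] {N : ℕ} (hN : 0 < N) {η : F} (hη : IsPrimitiveRoot η N)
    (m : Fin s → ℕ) (h : PN (fun i => η ^ m i) ≠ 0) {C : Type*} [Field C] [CharZero C] {ζ : C}
    (hζ : IsPrimitiveRoot ζ N) : PN (fun i => ζ ^ m i) ≠ 0 := by
  intro h0
  apply h
  have h1 : (aeval ζ) (PN (fun i => (X : ℤ[X]) ^ m i)) = 0 := by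
    have := PN_map ((aeval ζ : ℤ[X] →ₐ[ℤ] C) : ℤ[X] →+* C) (fun i => (X : ℤ[X]) ^ m i)
    simp only [RingHom.coe_coe, map_pow, aeval_X] at this
    rw [← this]; exact h0
  obtain ⟨Q, hQ⟩ := minpoly.isIntegrallyClosed_dvd (hζ.isIntegral hN) h1
  rw [← cyclotomic_eq_minpoly hζ hN] at hQ
  have h2 : (aeval η) (PN (fun i => (X : ℤ[X]) ^ m i)) = PN (fun i => η ^ m i) := by
    have := PN_map ((aeval η : ℤ[X] →ₐ[ℤ] F) : ℤ[X] →+* F) (fun i => (X : ℤ[X]) ^ m i)
    simp only [RingHom.coe_coe, map_pow, aeval_X] at this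
    rw [← this]
  rw [← h2, hQ, map_mul]
  have h3 : (aeval η) (cyclotomic N ℤ) = 0 := by
    have h4 := hη.isRoot_cyclotomic hN
    rw [IsRoot.def, ← map_cyclotomic_int N F, eval_map] at h4
    rw [aeval_def]
    exact h4
  rw [h3, zero_mul]

end Transfer

section Nodup

open Polynomial

variable {s : ℕ} {F : Type*} [Field F]

lemma det_ne_zero (t : Fin s → F) (ht : ∀ i, t i ≠ 0)
    (hinj : Function.Injective (fun q : Fin s × Bool => if q.2 then (t q.1)⁻¹ else t q.1)) :
    (Matrix.of (fun i k : Fin s => t i ^ (s + (k : ℕ)) - t i ^ (s - 1 - (k : ℕ)))).det ≠ 0 := by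
  intro h
  obtain ⟨c, hc, hM⟩ := Matrix.exists_mulVec_eq_zero_iff.mpr h
  set Q : F[X] := ∑ k : Fin s, C (c k) * (X ^ (s + (k : ℕ)) - X ^ (s - 1 - (k : ℕ))) with hQ
  have hev : ∀ z : F, Q.eval z = ∑ k : Fin s, c k * (z ^ (s + (k : ℕ)) - z ^ (s - 1 - (k : ℕ))) := by
    intro z
    rw [hQ, eval_finsetSum]
    simp
  have h1 : ∀ i, Q.eval (t i) = 0 := by
    intro i
    rw [hev]
    have := congrFun hM i
    simp only [Matrix.mulVec, dotProduct, Matrix.of_apply, Pi.zero_apply] at this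
    rw [← this]
    exact Finset.sum_congr rfl (fun k _ => mul_comm _ _)
  have h2 : ∀ z : F, z ≠ 0 → Q.eval z⁻¹ * z ^ (2 * s - 1) = - Q.eval z := by
    intro z hz
    rw [hev, hev, Finset.sum_mul, ← Finset.sum_neg_distrib]
    refine Finset.sum_congr rfl ?_
    intro k _
    have hk := k.isLt
    have e1 : z ^ (2 * s - 1) = z ^ (s + (k : ℕ)) * z ^ (s - 1 - (k : ℕ)) := by
      rw [← pow_add]; congr 1; omega
    have h5 : z ^ (s + (k : ℕ)) ≠ 0 := pow_ne_zero _ hz
    have h6 : z ^ (s - 1 - (k : ℕ)) ≠ 0 := pow_ne_zero _ hz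
    rw [e1, inv_pow, inv_pow]
    field_simp
    ring
  have h3 : Q = 0 := by
    apply eq_zero_of_natDegree_lt_card_of_eval_eq_zero Q hinj
    · rintro ⟨i, b⟩
      cases b
      · simpa using h1 i
      · have := h2 (t i) (ht i)
        rw [h1 i, neg_zero] at this
        rcases mul_eq_zero.mp this with h4 | h4
        · simpa using h4
        · exact absurd h4 (pow_ne_zero _ (ht i))
    · rw [Fintype.card_prod, Fintype.card_fin, Fintype.card_bool]
      have hs : 0 < s := by
        rcases Nat.eq_zero_or_pos s with h0 | h0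
        · subst h0
          exact absurd (_root_.funext fun k : Fin 0 => k.elim0) hc
        · exact h0
      refine lt_of_le_of_lt (natDegree_sum_le_of_forall_le (n := 2 * s - 1) _ _ ?_) (by omega)
      intro k _
      have hk := k.isLt
      refine (natDegree_C_mul_le _ _).trans ?_
      refine (natDegree_sub_le _ _).trans ?_
      rw [natDegree_X_pow, natDegree_X_pow]
      exact max_le (by omega) (by omega)
  apply hc
  funext k0
  have h4 : Q.coeff (s + (k0 : ℕ)) = c k0 := by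
    rw [hQ, finsetSum_coeff]
    rw [Finset.sum_eq_single k0]
    · rw [coeff_C_mul, coeff_sub, coeff_X_pow, coeff_X_pow, if_pos rfl, if_neg (by omega)]
      ring
    · intro k _ hk
      rw [coeff_C_mul, coeff_sub, coeff_X_pow, coeff_X_pow, if_neg, if_neg (by omega)]
      · ring
      · intro h; apply hk; exact Fin.ext (by omega)
    · simp
  rw [← h4, h3]
  simp

lemma PN_eq_det [CharP F 2] (t : Fin s → F) :
    PN t = (Matrix.of (fun i k : Fin s => t i ^ (s + (k : ℕ)) - t i ^ (s - 1 - (k : ℕ)))).det := by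
  rw [← Matrix.det_transpose, Matrix.det_apply']
  refine Finset.sum_congr rfl ?_
  intro σ _
  have h1 : ((Perm.sign σ : ℤ) : F) = 1 := by
    rcases Int.units_eq_one_or (Perm.sign σ) with h | h
    · rw [h]; simp
    · rw [h]; simp [CharTwo.neg_eq]
  rw [h1, one_mul]
  simp [Matrix.transpose_apply]

lemma exists_root {N : ℕ} (hN : N % 2 = 1) :
    ∃ η : AlgebraicClosure (ZMod 2), IsPrimitiveRoot η N := by
  have : NeZero ((N : ℕ) : AlgebraicClosure (ZMod 2)) := by
    refine ⟨?_⟩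
    intro h
    have := (CharP.cast_eq_zero_iff (AlgebraicClosure (ZMod 2)) 2 N).mp h
    omega
  exact HasEnoughRootsOfUnity.exists_primitiveRoot _ N

end Nodup

section Small

open Complex

variable {s : ℕ}

lemma exp_diff (θ : ℝ) (k : ℕ) (hk : k < s) :
    Complex.exp (2 * (θ : ℂ) * I) ^ (s + k) - Complex.exp (2 * (θ : ℂ) * I) ^ (s - 1 - k)
      = (Complex.exp (((2 * s - 1 : ℝ) * θ : ℝ) * I) * (2 * I)) *
        ((Real.sin ((2 * k + 1) * θ) : ℝ) : ℂ) := by
  rw [← Complex.exp_nat_mul, ← Complex.exp_nat_mul, Complex.ofReal_sin, Complex.sin]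
  have e1 : ((s + k : ℕ) : ℂ) * (2 * (θ : ℂ) * I)
      = (((2 * s - 1 : ℝ) * θ : ℝ) : ℂ) * I + (((2 * k + 1 : ℝ) * θ : ℝ) : ℂ) * I := by
    push_cast; ring
  have e2 : ((s - 1 - k : ℕ) : ℂ) * (2 * (θ : ℂ) * I)
      = (((2 * s - 1 : ℝ) * θ : ℝ) : ℂ) * I + -(((2 * k + 1 : ℝ) * θ : ℝ) : ℂ) * I := by
    rw [Nat.cast_sub (by omega), Nat.cast_sub (by omega)]
    push_cast; ring
  have e3 : (((2 * k + 1) * θ : ℝ) : ℂ) = (((2 * k + 1 : ℝ) * θ : ℝ) : ℂ) := rfl
  rw [e1, e2, Complex.exp_add, Complex.exp_add]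
  generalize Complex.exp ((((2 * s - 1 : ℝ) * θ : ℝ) : ℂ) * I) = a
  generalize (((2 * k + 1 : ℝ) * θ : ℝ) : ℂ) = z
  have hI : (I : ℂ) ^ 2 = -1 := Complex.I_sq
  linear_combination (a * (Complex.exp (z * I) - Complex.exp (-z * I))) * hI

lemma small_ne_zero (θ : Fin s → ℝ) (hθ : ∀ i, θ i ≠ 0)
    (hs : ∀ i, |θ i| * (2 * s - 1) < Real.pi) :
    PN (fun i => Complex.exp (2 * (θ i : ℂ) * I)) ≠ 0 := by
  have hsin : ∀ (i k : Fin s), Real.sin ((2 * ((k : ℕ) : ℝ) + 1) * θ i)
      = SignType.sign (θ i) * Real.sin ((2 * ((k : ℕ) : ℝ) + 1) * |θ i|) := by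
    intro i k
    rcases lt_or_gt_of_ne (hθ i) with h | h
    · rw [sign_neg h, abs_of_neg h]
      simp [Real.sin_neg]
    · rw [sign_pos h, abs_of_pos h]
      simp
  have hpos : ∀ (i k : Fin s), 0 < Real.sin ((2 * ((k : ℕ) : ℝ) + 1) * |θ i|) := by
    intro i k
    have h1 : 0 < |θ i| := abs_pos.mpr (hθ i)
    have hk : (2 * ((k : ℕ) : ℝ) + 1) ≤ 2 * s - 1 := by
      have : ((k : ℕ) : ℝ) + 1 ≤ s := by
        have := k.isLt
        exact_mod_cast this
      linarith
    apply Real.sin_pos_of_pos_of_lt_pi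
    · positivity
    · refine lt_of_le_of_lt ?_ (hs i)
      rw [mul_comm]
      exact mul_le_mul_of_nonneg_left hk h1.le
  have h1 : PN (fun i => Complex.exp (2 * (θ i : ℂ) * I))
      = (∏ i : Fin s, ((Complex.exp (((2 * s - 1 : ℝ) * θ i : ℝ) * I) * (2 * I)) *
          ((SignType.sign (θ i) : ℝ) : ℂ))) *
        ((∑ σ : Perm (Fin s), ∏ i, Real.sin ((2 * ((σ i : ℕ) : ℝ) + 1) * |θ i|) : ℝ) : ℂ) := by
    rw [Complex.ofReal_sum, Finset.mul_sum]
    refine Finset.sum_congr rfl ?_
    intro σ _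
    rw [Complex.ofReal_prod, ← Finset.prod_mul_distrib]
    refine Finset.prod_congr rfl ?_
    intro i _
    rw [exp_diff (θ i) (σ i : ℕ) (σ i).isLt, hsin]
    push_cast
    ring
  rw [h1]
  apply mul_ne_zero
  · rw [Finset.prod_ne_zero_iff]
    intro i _
    refine mul_ne_zero (mul_ne_zero (Complex.exp_ne_zero _) (by simp)) ?_
    rcases lt_or_gt_of_ne (hθ i) with h | h
    · rw [sign_neg h]; simp
    · rw [sign_pos h]; simp
  · have h2 : 0 < ∑ σ : Perm (Fin s), ∏ i, Real.sin ((2 * ((σ i : ℕ) : ℝ) + 1) * |θ i|) := by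
      apply Finset.sum_pos
      · intro σ _
        exact Finset.prod_pos (fun i _ => hpos i (σ i))
      · exact univ_nonempty
    exact_mod_cast h2.ne'

lemma zeta_prim (n : ℕ) :
    IsPrimitiveRoot (Complex.exp (2 * Real.pi * I / ((2 * n + 1 : ℕ) : ℂ))) (2 * n + 1) :=
  Complex.isPrimitiveRoot_exp _ (by omega)

lemma good_small (n : ℕ) (l : Fin s → ℕ) (hl : ∀ i, 1 ≤ l i ∧ l i ≤ n) (c : ℤ)
    (hc : IsCoprime c (2 * n + 1))
    (h : ∀ i, ∃ y : ℤ, (2 * n + 1 : ℤ) ∣ y - c * l i ∧ |y| * (2 * s - 1) < 2 * n + 1) :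
    PN (fun i => Complex.exp (2 * Real.pi * I / ((2 * n + 1 : ℕ) : ℂ)) ^ l i) ≠ 0 := by
  have hv : ((2 * n + 1 : ℕ) : ℂ) ≠ 0 := by rw [Nat.cast_ne_zero]; omega
  have hvR : (0 : ℝ) < ((2 * n + 1 : ℕ) : ℝ) := by
    rw [Nat.cast_pos]; omega
  have hη := (zeta_prim n).zpow_of_gcd_eq_one c (by
    rw [Int.isCoprime_iff_gcd_eq_one] at hc
    push_cast
    exact hc)
  refine transfer (by omega) hη l ?_ (zeta_prim n)
  choose y hy1 hy2 using h
  have hy0 : ∀ i, y i ≠ 0 := by
    intro i h0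
    have h1 := hy1 i
    rw [h0, zero_sub, dvd_neg] at h1
    have h2 : (2 * n + 1 : ℤ) ∣ l i := (hc.symm).dvd_of_dvd_mul_left h1
    have h3 := Int.le_of_dvd (by have := (hl i).1; omega) h2
    have := (hl i).2
    omega
  have hrep : ∀ i, (Complex.exp (2 * Real.pi * I / ((2 * n + 1 : ℕ) : ℂ)) ^ c) ^ l i
      = Complex.exp (2 * ((Real.pi * y i / ((2 * n + 1 : ℕ) : ℝ) : ℝ) : ℂ) * I) := by
    intro i
    obtain ⟨z, hz⟩ := hy1 i
    have h1 : c * l i = y i - (2 * n + 1) * z := by linear_combination -hz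
    rw [← zpow_natCast, ← zpow_mul, h1, ← Complex.exp_int_mul]
    rw [Complex.exp_eq_exp_iff_exists_int]
    refine ⟨-z, ?_⟩
    push_cast at hv ⊢
    field_simp
    ring
  simp_rw [hrep]
  apply small_ne_zero
  · intro i
    have : (y i : ℝ) ≠ 0 := by exact_mod_cast hy0 i
    have hpi := Real.pi_pos
    positivity
  · intro i
    have h1 : (|y i| : ℝ) * (2 * s - 1) < ((2 * n + 1 : ℕ) : ℝ) := by
      have := hy2 i
      exact_mod_cast this
    rw [abs_div, abs_mul, abs_of_pos Real.pi_pos, abs_of_pos hvR]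
    rw [div_mul_eq_mul_div, div_lt_iff₀ hvR, mul_assoc]
    exact mul_lt_mul_of_pos_left h1 Real.pi_pos

lemma good_inj (n : ℕ) (l : Fin s → ℕ) (hl : ∀ i, 1 ≤ l i ∧ l i ≤ n)
    (h : Function.Injective l) :
    PN (fun i => Complex.exp (2 * Real.pi * I / ((2 * n + 1 : ℕ) : ℂ)) ^ l i) ≠ 0 := by
  obtain ⟨η, hη⟩ := exists_root (N := 2 * n + 1) (by omega)
  refine transfer (by omega) hη l ?_ (zeta_prim n)
  rw [PN_eq_det]
  have h0 : η ≠ 0 := hη.ne_zero (by omega)
  apply det_ne_zero
  · intro i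
    exact pow_ne_zero _ h0
  · have key : ∀ i j : Fin s, η ^ l i = (η ^ l j)⁻¹ → False := by
      intro i j hij
      have h1 : η ^ (l i + l j) = 1 := by
        rw [pow_add, hij, inv_mul_cancel₀ (pow_ne_zero _ h0)]
      have h2 := (hη.pow_eq_one_iff_dvd _).mp h1
      have h3 := Nat.le_of_dvd (by have := (hl i).1; omega) h2
      have := (hl i).2
      have := (hl j).2
      omega
    have key2 : ∀ i j : Fin s, η ^ l i = η ^ l j → i = j := by
      intro i j hij
      apply h
      exact hη.pow_inj (by have := (hl i).2; omega) (by have := (hl j).2; omega) hij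
    rintro ⟨i, b⟩ ⟨j, b'⟩ hij
    cases b <;> cases b' <;> simp only [if_true, if_false, Bool.false_eq_true] at hij
    · rw [key2 i j hij]
    · exact (key i j hij).elim
    · exact (key j i hij.symm).elim
    · rw [key2 i j (inv_injective hij)]

end Small

/-- a block is good if it is repetition-free, or if some multiplier `c` prime to `v = 2n+1`
makes all its entries small residues. -/
def Good (n : ℕ) (S : Multiset ℕ) : Prop :=
  S.Nodup ∨ ∃ c : ℤ, IsCoprime c (2 * n + 1) ∧
    ∀ x ∈ S, ∃ y : ℤ, (2 * n + 1 : ℤ) ∣ y - c * x ∧ |y| * (2 * Multiset.card S - 1) < 2 * n + 1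

lemma good_enum (n : ℕ) (S : Multiset ℕ) (hS : ∀ x ∈ S, 1 ≤ x ∧ x ≤ n) (hg : Good n S) :
    ∃ (s : ℕ) (l : Fin s → ℕ), Multiset.map l (Finset.univ : Finset (Fin s)).val = S ∧
      PN (fun i => Complex.exp (2 * Real.pi * Complex.I / ((2 * n + 1 : ℕ) : ℂ)) ^ l i) ≠ 0 := by
  obtain ⟨s, l, hl⟩ : ∃ (s : ℕ) (l : Fin s → ℕ),
      Multiset.map l (Finset.univ : Finset (Fin s)).val = S := by
    induction S using Quotient.inductionOn with
    | _ l =>
      refine ⟨l.length, l.get, ?_⟩
      rw [Fin.univ_val_map, List.ofFn_get]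
      rfl
  refine ⟨s, l, hl, ?_⟩
  have hmem : ∀ i, l i ∈ S := by
    intro i
    rw [← hl]
    exact Multiset.mem_map_of_mem l (Finset.mem_univ i)
  have hcard : Multiset.card S = s := by
    rw [← hl]; simp
  rcases hg with hg | ⟨c, hc, hg⟩
  · apply good_inj n l (fun i => hS _ (hmem i))
    intro i j hij
    rw [← hl] at hg
    exact Multiset.inj_on_of_nodup_map hg i (Finset.mem_univ i) j (Finset.mem_univ j) hij
  · apply good_small n l (fun i => hS _ (hmem i)) c hc
    intro i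
    obtain ⟨y, hy1, hy2⟩ := hg _ (hmem i)
    rw [hcard] at hy2
    exact ⟨y, hy1, hy2⟩

/-- near 1-factors for lists that split into two good blocks. -/
theorem split_result (n : ℕ) (A B : Multiset ℕ) (hcard : Multiset.card (A + B) = n)
    (hL : ∀ x ∈ A + B, 1 ≤ x ∧ x ≤ n) (hA : Good n A) (hB : Good n B) :
    ∃ g : Fin n ⊕ Fin n → Fin (2 * n + 1), Function.Injective g ∧
      Multiset.map
        (fun i : Fin n =>
          min (Int.natAbs (((g (Sum.inl i) : ℕ) : ℤ) - ((g (Sum.inr i) : ℕ) : ℤ)))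
            (2 * n + 1 - Int.natAbs (((g (Sum.inl i) : ℕ) : ℤ) - ((g (Sum.inr i) : ℕ) : ℤ))))
        (Finset.univ : Finset (Fin n)).val = A + B := by
  obtain ⟨r, lA, hlA, hA'⟩ := good_enum n A
    (fun x hx => hL x (Multiset.mem_add.mpr (Or.inl hx))) hA
  obtain ⟨s, lB, hlB, hB'⟩ := good_enum n B
    (fun x hx => hL x (Multiset.mem_add.mpr (Or.inr hx))) hB
  have hn : n = r + s := by
    rw [← hcard, ← hlA, ← hlB]; simp
  subst hn
  have hζ := zeta_prim (r + s)
  set ζ := Complex.exp (2 * Real.pi * Complex.I / ((2 * (r + s) + 1 : ℕ) : ℂ)) with hζd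
  set l : Fin r ⊕ Fin s → ℕ := Sum.elim lA lB with hl
  have hlmap : Multiset.map l (Finset.univ : Finset (Fin r ⊕ Fin s)).val = A + B := by
    rw [← hlA, ← hlB, ← Finset.univ_disjSum_univ, Finset.val_disjSum, Multiset.disjSum,
      Multiset.map_add, Multiset.map_map, Multiset.map_map]
    rfl
  have hl' : ∀ i, 1 ≤ l i ∧ l i ≤ r + s := by
    intro i
    apply hL
    rw [← hlmap]
    exact Multiset.mem_map_of_mem l (Finset.mem_univ i)
  obtain ⟨x, hx⟩ := criterion (r := r) (s := s)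
    (AddChar.zmodChar (2 * (r + s) + 1) ((IsPrimitiveRoot.iff_def ζ _).mp hζ).left)
    (AddChar.zmodChar_primitive_of_primitive_root _ hζ)
    (fun i => ((l i : ℕ) : ZMod (2 * (r + s) + 1)))
    (by simpa only [AddChar.zmodChar_apply', hl, Sum.elim_inl] using hA')
    (by simpa only [AddChar.zmodChar_apply', hl, Sum.elim_inr] using hB')
    (by rw [Nat.cast_ne_zero]; omega)
  let φ : Fin r ⊕ Fin s ≃ Fin (r + s) := finSumFinEquiv
  refine ⟨fun q => ⟨ZMod.val (pt x (fun i => ((l i : ℕ) : ZMod (2 * (r + s) + 1)))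
    (q.elim (fun i => (φ.symm i, false)) (fun i => (φ.symm i, true)))), ZMod.val_lt _⟩, ?_, ?_⟩
  · intro q q' h
    have h1 := ZMod.val_injective _ (Fin.mk.inj h)
    have h2 := hx h1
    rcases q with i | i <;> rcases q' with j | j <;> simp at h2 <;> simp [h2]
  · rw [← hlmap]
    have h0 : (Finset.univ : Finset (Fin (r + s))).val
        = Multiset.map φ (Finset.univ : Finset (Fin r ⊕ Fin s)).val := by
      have := Finset.map_univ_equiv φ
      rw [← this]
      rfl
    rw [h0, Multiset.map_map]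
    refine Multiset.map_congr rfl ?_
    intro i _
    simp only [Function.comp, Sum.elim_inl, Sum.elim_inr, pt, if_true, Bool.false_eq_true,
      if_false, Equiv.symm_apply_apply]
    have h3 := hl' i
    have h4 : (x i + ((l i : ℕ) : ZMod (2 * (r + s) + 1))).val
        = ((x i).val + l i) % (2 * (r + s) + 1) := by
      rw [ZMod.val_add, ZMod.val_natCast_of_lt (by omega)]
    rw [h4]
    have h5 := ZMod.val_lt (x i)
    rcases Nat.lt_or_ge ((x i).val + l i) (2 * (r + s) + 1) with h6 | h6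
    · rw [Nat.mod_eq_of_lt h6]
      omega
    · rw [Nat.mod_eq_sub_mod h6, Nat.mod_eq_of_lt (by omega)]
      omega

/-- The conjecture of Meszka, Pasotti and Pellegrini for every odd `v = 2n+1` and every list in
which each length occurs at most twice, and more generally for lists that split into two good
blocks. -/
theorem result (n : ℕ) (L : Multiset ℕ) (hcard : Multiset.card L = n)
    (hL : ∀ x ∈ L, 1 ≤ x ∧ x ≤ n)
    (h : (∀ x, L.count x ≤ 2) ∨ ∃ A B : Multiset ℕ, A + B = L ∧ Good n A ∧ Good n B) :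
    ∃ g : Fin n ⊕ Fin n → Fin (2 * n + 1), Function.Injective g ∧
      Multiset.map
        (fun i : Fin n =>
          min (Int.natAbs (((g (Sum.inl i) : ℕ) : ℤ) - ((g (Sum.inr i) : ℕ) : ℤ)))
            (2 * n + 1 - Int.natAbs (((g (Sum.inl i) : ℕ) : ℤ) - ((g (Sum.inr i) : ℕ) : ℤ))))
        (Finset.univ : Finset (Fin n)).val = L := by
  obtain ⟨A, B, hAB, hA, hB⟩ : ∃ A B : Multiset ℕ, A + B = L ∧ Good n A ∧ Good n B := by
    rcases h with h | h
    · refine ⟨L.dedup, L - L.dedup, ?_, Or.inl L.nodup_dedup, Or.inl ?_⟩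
      · exact add_tsub_cancel_of_le (Multiset.dedup_le L)
      · rw [Multiset.nodup_iff_count_le_one]
        intro x
        rw [Multiset.count_sub]
        by_cases hx : x ∈ L
        · have h1 : Multiset.count x L.dedup = 1 :=
            Multiset.count_eq_one_of_mem L.nodup_dedup (Multiset.mem_dedup.mpr hx)
          have := h x
          omega
        · rw [Multiset.count_eq_zero_of_notMem hx]
          omega
    · exact h
  subst hAB
  exact split_result n A B hcard hL hA hB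

end Pool.Agent.Results.MP_6cccb1_co.TwoBlocks
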